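import Pool.Agent.Helper66.SEC.Defs

/-!
# S1: the symmetric Lovasz local lemma on a finite product space
-/

set_option autoImplicit false

namespace Pool.Agent.SEC

open Finset
open scoped Classical

namespace LLL

/-- number of sample points with a property -/
noncomputable def num {Ω : Type} [Fintype Ω] (p : Ω → Prop) : ℝ := ((univ.filter p).card : ℝ)

theorem num_eq {Ω : Type} [Fintype Ω] (p : Ω → Prop) [DecidablePred p] :
    num p = ((univ.filter p).card : ℝ) := by
  unfold num
  congr!

theorem num_nonneg {Ω : Type} [Fintype Ω] (p : Ω → Prop) : 0 ≤ num p := Nat.cast_nonneg _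

theorem num_mono {Ω : Type} [Fintype Ω] {p q : Ω → Prop} (h : ∀ ω, p ω → q ω) :
    num p ≤ num q := by
  unfold num
  exact_mod_cast card_le_card (fun ω hω => by
    simp only [mem_filter, mem_univ, true_and] at hω ⊢
    exact h ω hω)

theorem num_congr {Ω : Type} [Fintype Ω] {p q : Ω → Prop} (h : ∀ ω, p ω ↔ q ω) :
    num p = num q := by
  have : p = q := funext fun ω => propext (h ω)
  rw [this]

/-- mixing two sample points -/
noncomputable def mix {T A : Type} (S : Finset T) (a b : T → A) : T → A :=
  fun t => if t ∈ S then a t else b t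

theorem mix_mix {T A : Type} (S : Finset T) (a b : T → A) :
    mix S (mix S a b) (mix S b a) = a := by
  funext t
  unfold mix
  by_cases h : t ∈ S <;> simp [h]

/-- Independence of a property determined by `S` and a property determined off `S`. -/
theorem indep {T A : Type} [Fintype T] [Fintype A] (S : Finset T) (E G : (T → A) → Prop)
    (hE : ∀ ω ω' : T → A, (∀ t ∈ S, ω t = ω' t) → (E ω ↔ E ω'))
    (hG : ∀ ω ω' : T → A, (∀ t, t ∉ S → ω t = ω' t) → (G ω ↔ G ω')) :
    num (fun ω => E ω ∧ G ω) * Fintype.card (T → A) = num E * num G := by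
  have h1 : (univ.filter (fun z : (T → A) × (T → A) => E z.1 ∧ G z.2)).card =
      (univ.filter E).card * (univ.filter G).card := by
    rw [← card_product]
    congr 1
    ext z
    simp only [mem_filter, mem_univ, true_and, mem_product]
  have h2 : (univ.filter (fun z : (T → A) × (T → A) => E z.1 ∧ G z.1)).card =
      (univ.filter (fun ω => E ω ∧ G ω)).card * Fintype.card (T → A) := by
    rw [← card_univ (α := T → A), ← card_product]
    congr 1
    ext z
    simp only [mem_filter, mem_univ, true_and, mem_product, and_true]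
  have h3 : (univ.filter (fun z : (T → A) × (T → A) => E z.1 ∧ G z.1)).card =
      (univ.filter (fun z : (T → A) × (T → A) => E z.1 ∧ G z.2)).card := by
    refine card_bij' (fun z _ => (mix S z.1 z.2, mix S z.2 z.1))
      (fun z _ => (mix S z.1 z.2, mix S z.2 z.1)) ?_ ?_ ?_ ?_
    · intro z hz
      simp only [mem_filter, mem_univ, true_and] at hz ⊢
      constructor
      · rw [hE _ z.1]
        · exact hz.1
        · intro t ht
          simp [mix, ht]
      · rw [hG _ z.1]
        · exact hz.2
        · intro t ht
          simp [mix, ht]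
    · intro z hz
      simp only [mem_filter, mem_univ, true_and] at hz ⊢
      constructor
      · rw [hE _ z.1]
        · exact hz.1
        · intro t ht
          simp [mix, ht]
      · rw [hG _ z.2]
        · exact hz.2
        · intro t ht
          simp [mix, ht]
    · intro z _
      simp only [mix_mix]
    · intro z _
      simp only [mix_mix]
  rw [num_eq, num_eq, num_eq]
  have h4 := h2.symm.trans (h3.trans h1)
  exact_mod_cast h4

section
variable {T A ι : Type} [Fintype T] [Fintype A] [Nonempty A] [Fintype ι]

/-- the events of `F` are avoided -/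
def Av (E : ι → (T → A) → Prop) (F : Finset ι) (ω : T → A) : Prop := ∀ j ∈ F, ¬ E j ω

/-- splitting off one event -/
theorem num_insert (E : ι → (T → A) → Prop) (i : ι) (F : Finset ι) :
    num (Av E F) = num (Av E (insert i F)) + num (fun ω => E i ω ∧ Av E F ω) := by
  have hins : ∀ ω, Av E (insert i F) ω ↔ ¬ E i ω ∧ Av E F ω := by
    intro ω
    unfold Av
    simp only [mem_insert, forall_eq_or_imp]
  rw [num_eq, num_eq, num_eq]
  have : (univ.filter (Av E F)) = (univ.filter (Av E (insert i F))) ∪
      (univ.filter (fun ω => E i ω ∧ Av E F ω)) := by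
    ext ω
    rw [mem_union, mem_filter, mem_filter, mem_filter, hins]
    have := mem_univ ω
    tauto
  have hd : Disjoint (univ.filter (Av E (insert i F)))
      (univ.filter (fun ω => E i ω ∧ Av E F ω)) := by
    rw [disjoint_left]
    intro ω h1 h2
    rw [mem_filter, hins] at h1
    rw [mem_filter] at h2
    exact h1.2.1 h2.2.1
  rw [this, card_union_of_disjoint hd]
  push_cast
  ring

/-- union bound -/
theorem num_union (E : ι → (T → A) → Prop) (F₂ : Finset ι) (b : ℝ) :
    ∀ F₁ : Finset ι, (∀ j ∈ F₁, num (fun ω => E j ω ∧ Av E F₂ ω) ≤ b) →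
      num (Av E F₂) - F₁.card * b ≤ num (Av E (F₁ ∪ F₂)) := by
  intro F₁
  induction F₁ using Finset.induction_on with
  | empty => intro _; simp
  | insert i F₁ hi ih =>
    intro h
    have h1 := ih (fun j hj => h j (mem_insert_of_mem hj))
    have h2 := num_insert E i (F₁ ∪ F₂)
    have h3 : num (fun ω => E i ω ∧ Av E (F₁ ∪ F₂) ω) ≤ b := by
      refine le_trans (num_mono ?_) (h i (mem_insert_self _ _))
      intro ω hω
      exact ⟨hω.1, fun j hj => hω.2 j (mem_union_right _ hj)⟩
    rw [insert_union, card_insert_of_notMem hi]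
    push_cast
    linarith

/-- the main estimate -/
theorem main (S : ι → Finset T) (E : ι → (T → A) → Prop)
    (hdep : ∀ i (ω ω' : T → A), (∀ t ∈ S i, ω t = ω' t) → (E i ω ↔ E i ω'))
    (d : ℕ) (hd : ∀ i, (univ.filter (fun j => ∃ t, t ∈ S i ∧ t ∈ S j)).card ≤ d)
    (p : ℝ) (hp0 : 0 ≤ p) (hp : ∀ i, pr (E i) ≤ p) (h : 4 * p * (d + 1) ≤ 1) :
    ∀ (n : ℕ) (F : Finset ι), F.card = n → ∀ i, i ∉ F →
      num (fun ω => E i ω ∧ Av E F ω) ≤ 2 * p * num (Av E F) := by
  intro n
  induction n using Nat.strong_induction_on with
  | _ n ih =>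
    intro F hF i hi
    set F₁ := F.filter (fun j => ∃ t, t ∈ S i ∧ t ∈ S j) with hF₁
    set F₂ := F.filter (fun j => ¬ ∃ t, t ∈ S i ∧ t ∈ S j) with hF₂
    have hFF : F₁ ∪ F₂ = F := filter_union_filter_not_eq _ F
    -- independence
    have hind := indep (S i) (E i) (Av E F₂) (hdep i) (by
      intro ω ω' hω
      unfold Av
      refine forall_congr' fun j => forall_congr' fun hj => ?_
      rw [hdep j ω ω' ?_]
      intro t ht
      apply hω
      intro hti
      rw [hF₂, mem_filter] at hj
      exact hj.2 ⟨t, hti, ht⟩)
    have hcard : (0 : ℝ) < Fintype.card (T → A) := by exact_mod_cast Fintype.card_pos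
    have hpi : num (E i) ≤ p * Fintype.card (T → A) := by
      have := hp i
      unfold pr at this
      rw [div_le_iff₀ hcard] at this
      exact this
    have h1 : num (fun ω => E i ω ∧ Av E F₂ ω) ≤ p * num (Av E F₂) := by
      have : num (fun ω => E i ω ∧ Av E F₂ ω) * Fintype.card (T → A) ≤
          (p * num (Av E F₂)) * Fintype.card (T → A) := by
        rw [hind]
        nlinarith [num_nonneg (Av E F₂)]
      exact le_of_mul_le_mul_right this hcard
    have h2 : num (fun ω => E i ω ∧ Av E F ω) ≤ num (fun ω => E i ω ∧ Av E F₂ ω) := by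
      apply num_mono
      intro ω hω
      refine ⟨hω.1, fun j hj => hω.2 j ?_⟩
      rw [hF₂, mem_filter] at hj
      exact hj.1
    -- lower bound for the number of points avoiding `F`
    have h3 : (1 / 2) * num (Av E F₂) ≤ num (Av E F) := by
      by_cases hemp : F₁ = ∅
      · have : F₂ = F := by rw [← hFF, hemp, empty_union]
        rw [this]
        nlinarith [num_nonneg (Av E F)]
      · have hlt : F₂.card < n := by
          have h8 : F₁.card + F₂.card = F.card := by
            rw [hF₁, hF₂]
            exact card_filter_add_card_filter_not _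
          have : 0 < F₁.card := card_pos.mpr (nonempty_iff_ne_empty.mpr hemp)
          omega
        have h4 := num_union E F₂ (2 * p * num (Av E F₂)) F₁ (by
          intro j hj
          apply ih F₂.card hlt F₂ rfl j
          intro hj2
          rw [hF₁, mem_filter] at hj
          rw [hF₂, mem_filter] at hj2
          exact hj2.2 hj.2)
        rw [hFF] at h4
        have h5 : (F₁.card : ℝ) ≤ d := by
          have : F₁.card ≤ d := by
            refine le_trans (card_le_card ?_) (hd i)
            intro j hj
            rw [hF₁, mem_filter] at hj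
            simp only [mem_filter, mem_univ, true_and]
            exact hj.2
          exact_mod_cast this
        have h6 : (F₁.card : ℝ) * (2 * p * num (Av E F₂)) ≤ (1 / 2) * num (Av E F₂) := by
          have h7 : (F₁.card : ℝ) * (2 * p) ≤ 1 / 2 := by nlinarith
          calc (F₁.card : ℝ) * (2 * p * num (Av E F₂))
              = ((F₁.card : ℝ) * (2 * p)) * num (Av E F₂) := by ring
            _ ≤ (1 / 2) * num (Av E F₂) :=
                mul_le_mul_of_nonneg_right h7 (num_nonneg _)
        linarith
    nlinarith [num_nonneg (Av E F), num_nonneg (Av E F₂)]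

end

end LLL

theorem lll {T A ι : Type} [Fintype T] [Fintype A] [Nonempty A] [Fintype ι]
    (S : ι → Finset T) (E : ι → (T → A) → Prop)
    (hdep : ∀ i (ω ω' : T → A), (∀ t ∈ S i, ω t = ω' t) → (E i ω ↔ E i ω'))
    (d : ℕ) (hd : ∀ i, (univ.filter (fun j => ∃ t, t ∈ S i ∧ t ∈ S j)).card ≤ d)
    (p : ℝ) (hp : ∀ i, pr (E i) ≤ p) (h : 4 * p * (d + 1) ≤ 1) : ∃ ω, ∀ i, ¬ E i ω := by
  rcases isEmpty_or_nonempty ι with hι | ⟨⟨i₀⟩⟩
  · exact ⟨fun _ => Classical.arbitrary A, fun i => (hι.false i).elim⟩
  have hp0 : 0 ≤ p := le_trans (by unfold pr; positivity) (hp i₀)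
  have key : ∀ F : Finset ι, 0 < LLL.num (LLL.Av E F) := by
    intro F
    induction F using Finset.induction_on with
    | empty =>
      have : LLL.num (LLL.Av E (∅ : Finset ι)) = Fintype.card (T → A) := by
        unfold LLL.num LLL.Av
        simp
      rw [this]
      exact_mod_cast Fintype.card_pos
    | insert i F hi ih =>
      have h1 := LLL.num_insert E i F
      have h2 := LLL.main S E hdep d hd p hp0 hp h F.card F rfl i hi
      have h3 : 2 * p ≤ 1 / 2 := by
        have : (0 : ℝ) ≤ d := Nat.cast_nonneg d
        nlinarith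
      nlinarith
  have h1 := key univ
  unfold LLL.num at h1
  have h2 : 0 < (univ.filter (LLL.Av E (univ : Finset ι))).card := by exact_mod_cast h1
  obtain ⟨ω, hω⟩ := card_pos.mp h2
  simp only [mem_filter, mem_univ, true_and] at hω
  exact ⟨ω, fun i => hω i (mem_univ i)⟩

end Pool.Agent.SEC
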