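import Mathlib

/-!
# Strong edge colouring of bipartite graphs: definitions

`r : X → Y → Prop` is the adjacency relation of a bipartite graph with parts `X`, `Y`;
an edge is a pair `e : X × Y` with `r e.1 e.2`.
-/

set_option autoImplicit false

namespace Pool.Agent.SEC

open Finset
open scoped Classical

/-- probability of a property under the uniform distribution on a finite type -/
noncomputable def pr {Ω : Type} [Fintype Ω] (p : Ω → Prop) : ℝ :=
  ((univ.filter p).card : ℝ) / Fintype.card Ω

variable {X Y : Type} [Fintype X] [Fintype Y]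

/-- neighbours of `x` -/
noncomputable def nX (r : X → Y → Prop) (x : X) : Finset Y := univ.filter (fun y => r x y)

/-- neighbours of `y` -/
noncomputable def nY (r : X → Y → Prop) (y : Y) : Finset X := univ.filter (fun x => r x y)

/-- the edges -/
noncomputable def edges (r : X → Y → Prop) : Finset (X × Y) :=
  univ.filter (fun e => r e.1 e.2)

/-- `x` is the unique neighbour of `y` of smallest level, and this level is less than `K` -/
def IsFirst (r : X → Y → Prop) (K : ℕ) (l : X → ℕ) (x : X) (y : Y) : Prop :=
  r x y ∧ l x < K ∧ ∀ x', r x' y → x' ≠ x → l x < l x'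

/-- the edges of `U` which join a `y` to its first neighbour -/
noncomputable def act (r : X → Y → Prop) (K : ℕ) (l : X → ℕ) (U : Finset (X × Y)) :
    Finset (X × Y) := U.filter (fun e => IsFirst r K l e.1 e.2)

/-- the load of `x`: number of neighbours `y` of `x` whose first edge belongs to `U` -/
noncomputable def load (r : X → Y → Prop) (K : ℕ) (l : X → ℕ) (U : Finset (X × Y)) (x : X) : ℕ :=
  ((act r K l U).filter (fun e => r x e.2)).card

/-- the active edges whose centre has load at most `D` -/
noncomputable def used (r : X → Y → Prop) (K : ℕ) (l : X → ℕ) (U : Finset (X × Y)) (D : ℕ) :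
    Finset (X × Y) := (act r K l U).filter (fun e => load r K l U e.1 ≤ D)

/-- number of edges of `W` at the same centre with smaller index -/
noncomputable def rank (idx : Y → ℕ) (W : Finset (X × Y)) (e : X × Y) : ℕ :=
  (W.filter (fun e' => e'.1 = e.1 ∧ idx e'.2 < idx e.2)).card

/-- the colours outside `B`, in the order given by the permutation `π` -/
noncomputable def avail {D : ℕ} (π : Equiv.Perm (Fin D)) (B : Finset (Fin D)) : List (Fin D) :=
  ((List.finRange D).map π).filter (fun c => c ∉ B)

/-- random greedy colouring: after stage `k` the edges of `W` with centre of level `< k` have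
received their colour -/
noncomputable def stage (r : X → Y → Prop) (l : X → ℕ) (idx : Y → ℕ) (W : Finset (X × Y)) {D : ℕ}
    (π : X → Equiv.Perm (Fin D)) : ℕ → X × Y → Option (Fin D)
  | 0 => fun _ => none
  | k + 1 => fun e =>
      if e ∈ W ∧ l e.1 = k then
        (avail (π e.1) (univ.filter (fun c => ∃ e' ∈ W, r e.1 e'.2 ∧
          stage r l idx W π k e' = some c)))[rank idx W e]?
      else stage r l idx W π k e

/-- level function of a sample point -/
def lev {N : ℕ} {β : Type} (ω : X → Fin N × β) : X → ℕ := fun x => ((ω x).1 : ℕ)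

/-- permutations of a sample point -/
def per {D : ℕ} {α : Type} (ω : X → α × Equiv.Perm (Fin D)) : X → Equiv.Perm (Fin D) :=
  fun x => (ω x).2

/-- one random induced matching, contained in `U` -/
noncomputable def cls (r : X → Y → Prop) (K : ℕ) (idx : Y → ℕ) (U : Finset (X × Y)) {N D : ℕ}
    (c₀ : Fin D) (ω : X → Fin N × Equiv.Perm (Fin D)) : Finset (X × Y) :=
  (used r K (lev ω) U D).filter
    (fun e => stage r (lev ω) idx (used r K (lev ω) U D) (per ω) K e = some c₀)

/-- the edges of `U` not covered by the `J` random induced matchings -/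
noncomputable def left (r : X → Y → Prop) (K : ℕ) (idx : Y → ℕ) (U : Finset (X × Y)) {N D J : ℕ}
    (c₀ : Fin D) (ω : X → (Fin J → Fin N × Equiv.Perm (Fin D))) : Finset (X × Y) :=
  U.filter (fun e => ∀ j : Fin J, e ∉ cls r K idx U c₀ (fun x => ω x j))

/-- balls in the square of the graph, restricted to `X` -/
noncomputable def ball (r : X → Y → Prop) : ℕ → X → Finset X
  | 0 => fun x => {x}
  | n + 1 => fun x => univ.filter (fun z => z ∈ ball r n x ∨
      ∃ z' ∈ ball r n x, ∃ y, r z' y ∧ r z y)

/-- the property of the set `U` of uncovered edges which is maintained -/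
def Good (r : X → Y → Prop) (K N D : ℕ) (δ : ℝ) (U : Finset (X × Y)) : Prop :=
  U ⊆ edges r ∧
  (∀ x, pr (fun l : X → Fin N => D < load r K (fun z => (l z : ℕ)) U x) ≤ δ) ∧
  (∀ x, (U.filter (fun e => e.1 = x)).card ≤ D) ∧
  (∀ y, (U.filter (fun e => e.2 = y)).card ≤ D)

/-- induced matching -/
def IndMatch (r : X → Y → Prop) (M : Finset (X × Y)) : Prop :=
  ∀ e ∈ M, ∀ e' ∈ M, e ≠ e' → ¬ r e.1 e'.2

end Pool.Agent.SEC
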