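import Pool.Agent.Helper66.SEC.Defs

set_option autoImplicit false

namespace Pool.Agent.SEC

open Finset
open scoped Classical

variable {X Y : Type} [Fintype X] [Fintype Y]

namespace First

omit [Fintype Y] in
theorem pr_pi {N : ℕ} (A : X → Finset (Fin N)) :
    pr (fun l : X → Fin N => ∀ z, l z ∈ A z) = ∏ z, ((A z).card : ℝ) / N := by
  unfold pr
  have h1 : ∀ inst : DecidablePred (fun l : X → Fin N => ∀ z, l z ∈ A z),
      @Finset.filter _ (fun l : X → Fin N => ∀ z, l z ∈ A z) inst univ =
        Fintype.piFinset A := by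
    intro inst
    ext l
    simp
  rw [h1, Fintype.card_piFinset, Fintype.card_fun, Fintype.card_fin, Finset.prod_div_distrib]
  simp

theorem card_lt {N k : ℕ} (hk : k < N) :
    ((univ : Finset (Fin N)).filter (fun j : Fin N => k < (j : ℕ))).card = N - (k + 1) := by
  have h : (univ : Finset (Fin N)).filter (fun j : Fin N => k < (j : ℕ)) =
      Finset.Ioi (⟨k, hk⟩ : Fin N) := by
    ext j
    simp [Fin.lt_def]
  rw [h, Fin.card_Ioi]
  simp only
  omega

theorem card_eq {N k : ℕ} (hk : k < N) :
    ((univ : Finset (Fin N)).filter (fun j : Fin N => (j : ℕ) = k)).card = 1 := by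
  have h : (univ : Finset (Fin N)).filter (fun j : Fin N => (j : ℕ) = k) =
      {(⟨k, hk⟩ : Fin N)} := by
    ext j
    simp [Fin.ext_iff]
  rw [h, card_singleton]

theorem card_below {N K : ℕ} :
    ((univ : Finset (Fin N)).filter (fun j : Fin N => (j : ℕ) < K)).card ≤ K := by
  calc ((univ : Finset (Fin N)).filter (fun j : Fin N => (j : ℕ) < K)).card
      = (((univ : Finset (Fin N)).filter (fun j : Fin N => (j : ℕ) < K)).image
          (fun j : Fin N => (j : ℕ))).card :=
        (card_image_of_injective _ Fin.val_injective).symm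
    _ ≤ (range K).card := by
        apply card_le_card
        intro m hm
        rw [mem_image] at hm
        obtain ⟨j, hj, rfl⟩ := hm
        rw [mem_filter] at hj
        exact mem_range.2 hj.2
    _ = K := card_range K

/-- the fibre of the event over the level `k` of `x` -/
theorem pr_fib (r : X → Y → Prop) {N k : ℕ} (hk : k < N) {x : X} {y : Y} (hxy : r x y) :
    pr (fun l : X → Fin N => (l x : ℕ) = k ∧ ∀ z, r z y → z ≠ x → k < (l z : ℕ)) =
      1 / N * (1 - ((k : ℝ) + 1) / N) ^ ((nY r y).card - 1) := by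
  have hN : (0 : ℝ) < N := by
    have : 0 < N := by omega
    exact_mod_cast this
  let A : X → Finset (Fin N) := fun z =>
    if z = x then univ.filter (fun j : Fin N => (j : ℕ) = k)
    else if r z y then univ.filter (fun j : Fin N => k < (j : ℕ)) else univ
  have h1 : (fun l : X → Fin N => (l x : ℕ) = k ∧ ∀ z, r z y → z ≠ x → k < (l z : ℕ)) =
      (fun l : X → Fin N => ∀ z, l z ∈ A z) := by
    funext l
    apply propext
    constructor
    · rintro ⟨h1, h2⟩ z
      simp only [A]
      split_ifs with h3 h4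
      · subst h3
        simpa using h1
      · simpa using h2 z h4 h3
      · simp
    · intro h
      constructor
      · have := h x
        simpa [A] using this
      · intro z hz hzx
        have := h z
        simpa [A, hz, hzx] using this
  rw [h1, pr_pi]
  have h2 : ∀ z, ((A z).card : ℝ) / N =
      (if z = x then (1 : ℝ) / N else 1) *
      (if z ∈ (nY r y).erase x then (1 - ((k : ℝ) + 1) / N) else 1) := by
    intro z
    simp only [A]
    by_cases h3 : z = x
    · subst h3
      simp [card_eq hk]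
    · by_cases h4 : r z y
      · have h5 : z ∈ (nY r y).erase x := by
          simp [nY, h3, h4]
        rw [if_neg h3, if_pos h4, if_neg h3, if_pos h5, card_lt hk, Nat.cast_sub (by omega)]
        push_cast
        field_simp
      · have h5 : z ∉ (nY r y).erase x := by
          simp [nY, h4]
        rw [if_neg h3, if_neg h4, if_neg h3, if_neg h5]
        simp [hN.ne']
  rw [Finset.prod_congr rfl (fun z _ => h2 z), Finset.prod_mul_distrib]
  congr 1
  · rw [Finset.prod_ite_eq' univ x (fun _ => (1 : ℝ) / N)]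
    simp
  · rw [Finset.prod_ite_mem, Finset.univ_inter, Finset.prod_const, Finset.card_erase_of_mem]
    simp [nY, hxy]

theorem pr_sum (r : X → Y → Prop) {N K : ℕ} (hK : K ≤ N) {x : X} {y : Y} (hxy : r x y) :
    pr (fun l : X → Fin N => IsFirst r K (fun z => (l z : ℕ)) x y) =
      ∑ k ∈ range K, 1 / N * (1 - ((k : ℝ) + 1) / N) ^ ((nY r y).card - 1) := by
  have h1 : ∀ k ∈ range K, 1 / N * (1 - ((k : ℝ) + 1) / N) ^ ((nY r y).card - 1) =
      (((univ.filter (fun l : X → Fin N => IsFirst r K (fun z => (l z : ℕ)) x y)).filter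
        (fun l => (l x : ℕ) = k)).card : ℝ) / Fintype.card (X → Fin N) := by
    intro k hk
    have hk' := mem_range.1 hk
    rw [← pr_fib r (lt_of_lt_of_le hk' hK) hxy]
    unfold pr
    rw [Finset.filter_filter]
    congr 3
    ext l
    simp only [mem_filter, mem_univ, true_and]
    unfold IsFirst
    constructor
    · rintro ⟨h1, h2⟩
      refine ⟨⟨hxy, ?_, ?_⟩, h1⟩
      · change (l x : ℕ) < K
        rw [h1]; exact hk'
      · intro z hz hzx
        change (l x : ℕ) < (l z : ℕ)
        rw [h1]; exact h2 z hz hzx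
    · rintro ⟨⟨_, _, h3⟩, h4⟩
      refine ⟨h4, ?_⟩
      intro z hz hzx
      rw [← h4]; exact h3 z hz hzx
  rw [Finset.sum_congr rfl h1, ← Finset.sum_div, ← Nat.cast_sum]
  unfold pr
  congr 2
  apply Finset.card_eq_sum_card_fiberwise
  intro l hl
  have := (mem_filter.1 hl).2
  simpa using this.2.1

theorem pow_sub_le {a b : ℝ} (hb : 0 ≤ b) (hab : b ≤ a) (n : ℕ) :
    a ^ n - b ^ n ≤ n * (a - b) * a ^ (n - 1) := by
  induction n with
  | zero => simp
  | succ n ih =>
    have ha : 0 ≤ a := hb.trans hab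
    rcases Nat.eq_zero_or_pos n with h | h
    · subst h; simp
    · have h1 : a * a ^ (n - 1) = a ^ n := by
        rw [← pow_succ']
        congr 1
        omega
      have h2 : b ^ n ≤ a ^ n := pow_le_pow_left₀ hb hab n
      have h3 : a * (a ^ n - b ^ n) ≤ a * (n * (a - b) * a ^ (n - 1)) :=
        mul_le_mul_of_nonneg_left ih ha
      have h4 : (a - b) * b ^ n ≤ (a - b) * a ^ n :=
        mul_le_mul_of_nonneg_left h2 (by linarith)
      have h5 : a * (n * (a - b) * a ^ (n - 1)) = n * (a - b) * a ^ n := by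
        rw [← h1]; ring
      rw [h5] at h3
      simp only [Nat.add_sub_cancel]
      push_cast
      rw [pow_succ, pow_succ]
      nlinarith

theorem bound (H K Δ : ℕ) (hH : 0 < H) (hΔ : 0 < Δ) (hK : K ≤ H * Δ) (d : ℕ) (hd : d ≤ Δ - 1) :
    (1 - 1 / (H : ℝ) - Real.exp (-(K / H))) / Δ ≤
      ∑ k ∈ range K, 1 / ((H * Δ : ℕ) : ℝ) * (1 - ((k : ℝ) + 1) / ((H * Δ : ℕ) : ℝ)) ^ d := by
  have hHr : (0 : ℝ) < H := by exact_mod_cast hH
  have hDr : (0 : ℝ) < Δ := by exact_mod_cast hΔ
  have hNr : ((H * Δ : ℕ) : ℝ) = H * Δ := by push_cast; ring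
  set N : ℝ := ((H * Δ : ℕ) : ℝ) with hN
  have hNpos : 0 < N := by rw [hNr]; positivity
  let G : ℕ → ℝ := fun j => (max (1 - ((j : ℝ) + 1) / N) 0) ^ Δ
  have step : ∀ k ∈ range K, (G k - G (k + 1)) / Δ ≤
      1 / N * (1 - ((k : ℝ) + 1) / N) ^ d := by
    intro k hk
    have hk' : (k : ℝ) + 1 ≤ N := by
      rw [hN]
      have := mem_range.1 hk
      have h2 : k + 1 ≤ H * Δ := by omega
      exact_mod_cast h2
    have ha : 0 ≤ 1 - ((k : ℝ) + 1) / N := by
      rw [sub_nonneg, div_le_one hNpos]; exact hk'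
    have ha1 : 1 - ((k : ℝ) + 1) / N ≤ 1 := by
      have : 0 ≤ ((k : ℝ) + 1) / N := by positivity
      linarith
    have hG : G k = (1 - ((k : ℝ) + 1) / N) ^ Δ := by
      simp only [G]
      rw [max_eq_left ha]
    have hb0 : 0 ≤ max (1 - (((k + 1 : ℕ) : ℝ) + 1) / N) 0 := le_max_right _ _
    have hba : max (1 - (((k + 1 : ℕ) : ℝ) + 1) / N) 0 ≤ 1 - ((k : ℝ) + 1) / N := by
      apply max_le _ ha
      push_cast
      have : ((k : ℝ) + 1) / N ≤ ((k : ℝ) + 1 + 1) / N := by
        apply div_le_div_of_nonneg_right _ hNpos.le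
        linarith
      linarith
    have h1 := pow_sub_le hb0 hba Δ
    have h2 : 1 - ((k : ℝ) + 1) / N - max (1 - (((k + 1 : ℕ) : ℝ) + 1) / N) 0 ≤ 1 / N := by
      have : 1 - (((k + 1 : ℕ) : ℝ) + 1) / N ≤ max (1 - (((k + 1 : ℕ) : ℝ) + 1) / N) 0 :=
        le_max_left _ _
      push_cast at this ⊢
      have h3 : ((k : ℝ) + 1 + 1) / N = ((k : ℝ) + 1) / N + 1 / N := by ring
      linarith
    rw [div_le_iff₀ hDr]
    calc G k - G (k + 1) ≤ Δ * (1 - ((k : ℝ) + 1) / N -
          max (1 - (((k + 1 : ℕ) : ℝ) + 1) / N) 0) * (1 - ((k : ℝ) + 1) / N) ^ (Δ - 1) := by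
            rw [hG]; exact h1
      _ ≤ Δ * (1 / N) * (1 - ((k : ℝ) + 1) / N) ^ (Δ - 1) := by
            apply mul_le_mul_of_nonneg_right _ (pow_nonneg ha _)
            exact mul_le_mul_of_nonneg_left h2 hDr.le
      _ ≤ Δ * (1 / N) * (1 - ((k : ℝ) + 1) / N) ^ d := by
            apply mul_le_mul_of_nonneg_left _ (by positivity)
            exact pow_le_pow_of_le_one ha ha1 hd
      _ = 1 / N * (1 - ((k : ℝ) + 1) / N) ^ d * Δ := by ring
  have tel : ∑ k ∈ range K, (G k - G (k + 1)) = G 0 - G K := Finset.sum_range_sub' G K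
  have h0 : 1 - 1 / (H : ℝ) ≤ G 0 := by
    have hN1 : 1 ≤ N := by
      rw [hN]
      have : 1 ≤ H * Δ := Nat.mul_pos hH hΔ
      exact_mod_cast this
    have h1 : 0 ≤ 1 - 1 / N := by
      rw [sub_nonneg, div_le_one hNpos]; exact hN1
    have h2 : G 0 = (1 - 1 / N) ^ Δ := by
      simp only [G, Nat.cast_zero, zero_add]
      rw [max_eq_left h1]
    rw [h2]
    have h3 := one_add_mul_le_pow (a := -(1 / N)) (by linarith) Δ
    have h4 : 1 + (Δ : ℝ) * -(1 / N) = 1 - 1 / H := by
      rw [hNr]; field_simp; ring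
    rw [h4] at h3
    calc 1 - 1 / (H : ℝ) ≤ (1 + -(1 / N)) ^ Δ := h3
      _ = (1 - 1 / N) ^ Δ := by ring_nf
  have hKb : G K ≤ Real.exp (-(K / H)) := by
    have h1 : max (1 - ((K : ℝ) + 1) / N) 0 ≤ Real.exp (-((K : ℝ) / N)) := by
      apply max_le _ (Real.exp_pos _).le
      have h2 := Real.add_one_le_exp (-((K : ℝ) / N))
      have h3 : (K : ℝ) / N ≤ ((K : ℝ) + 1) / N := by
        apply div_le_div_of_nonneg_right _ hNpos.le
        linarith
      linarith
    calc G K ≤ (Real.exp (-((K : ℝ) / N))) ^ Δ :=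
          pow_le_pow_left₀ (le_max_right _ _) h1 Δ
      _ = Real.exp (-(K / H)) := by
          rw [← Real.exp_nat_mul]
          congr 1
          rw [hNr]; field_simp
  calc (1 - 1 / (H : ℝ) - Real.exp (-(K / H))) / Δ ≤ (G 0 - G K) / Δ := by
        apply div_le_div_of_nonneg_right _ hDr.le
        linarith
    _ = ∑ k ∈ range K, (G k - G (k + 1)) / Δ := by rw [← tel, Finset.sum_div]
    _ ≤ _ := Finset.sum_le_sum step

end First

theorem pr_isFirst (r : X → Y → Prop) (H K Δ : ℕ) (hH : 0 < H) (hΔ : 0 < Δ) (hK : K ≤ H * Δ)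
    {x : X} {y : Y} (hxy : r x y) (hy : (nY r y).card ≤ Δ) :
    (1 - 1 / H - Real.exp (-(K / H))) / Δ ≤
      pr (fun l : X → Fin (H * Δ) => IsFirst r K (fun z => (l z : ℕ)) x y) := by
  rw [First.pr_sum r hK hxy]
  exact First.bound H K Δ hH hΔ hK _ (by omega)

theorem pr_two_levels (K N : ℕ) {x x' : X} (hx : x ≠ x') :
    pr (fun l : X → Fin N => (l x : ℕ) < K ∧ (l x' : ℕ) < K) ≤ ((K : ℝ) / N) ^ 2 := by
  let A : X → Finset (Fin N) := fun z =>
    if z = x ∨ z = x' then univ.filter (fun j : Fin N => (j : ℕ) < K) else univ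
  have h1 : (fun l : X → Fin N => (l x : ℕ) < K ∧ (l x' : ℕ) < K) =
      (fun l : X → Fin N => ∀ z, l z ∈ A z) := by
    funext l
    apply propext
    constructor
    · rintro ⟨h1, h2⟩ z
      simp only [A]
      split_ifs with h3
      · rcases h3 with h3 | h3
        · subst h3; simpa using h1
        · subst h3; simpa using h2
      · simp
    · intro h
      constructor
      · have := h x
        simpa [A] using this
      · have := h x'
        simpa [A] using this
  rw [h1, First.pr_pi]
  rcases Nat.eq_zero_or_pos N with hN0 | hN0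
  · subst hN0
    rw [Finset.prod_eq_zero (mem_univ x) (by simp)]
    positivity
  have hN : (0 : ℝ) < N := by exact_mod_cast hN0
  have hle : ∀ z, ((A z).card : ℝ) / N ≤ (if z = x then (K : ℝ) / N else 1) *
      (if z = x' then (K : ℝ) / N else 1) := by
    intro z
    have hc : (((univ : Finset (Fin N)).filter (fun j : Fin N => (j : ℕ) < K)).card : ℝ) / N ≤
        (K : ℝ) / N := by
      apply div_le_div_of_nonneg_right _ hN.le
      exact_mod_cast First.card_below
    simp only [A]
    by_cases h3 : z = x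
    · subst h3
      simp only [true_or, if_true, if_neg hx, mul_one]
      exact hc
    · by_cases h4 : z = x'
      · subst h4
        simp only [or_true, if_true, if_neg h3, one_mul]
        exact hc
      · simp [h3, h4, hN.ne']
  calc ∏ z, ((A z).card : ℝ) / N ≤ ∏ z, ((if z = x then (K : ℝ) / N else 1) *
      (if z = x' then (K : ℝ) / N else 1)) := by
        apply Finset.prod_le_prod
        · intro z _; positivity
        · intro z _; exact hle z
    _ = ((K : ℝ) / N) ^ 2 := by
        rw [Finset.prod_mul_distrib, Finset.prod_ite_eq' univ x (fun _ => (K : ℝ) / N),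
          Finset.prod_ite_eq' univ x' (fun _ => (K : ℝ) / N)]
        simp only [mem_univ, if_true]
        ring

end Pool.Agent.SEC
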