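import Pool.Agent.Helper66.SEC.Defs

/-!
# The exact fractional theorem

The fractional strong chromatic index of a bipartite graph is at most the largest value of
`∑ y ∈ N(x), d(y)`.
-/

set_option autoImplicit false

namespace Pool.Agent.SEC

open Finset
open scoped Classical

namespace Frac

variable {X Y : Type} [Fintype X] [Fintype Y]

/-- Greedy choice of colour sets. -/
theorem greedy (R : ℕ) (d : Y → ℕ) (N' : Y → Finset Y) (hself : ∀ y, y ∈ N' y)
    (hR : ∀ y, ∑ y' ∈ N' y, d y' ≤ R) (t : Y → ℕ) (ht : Function.Injective t) :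
    ∃ col : Y → Finset (Fin R), ∀ y, (col y).card = d y ∧
      ∀ y' ∈ N' y, t y' < t y → Disjoint (col y) (col y') := by
  have key : ∀ n : ℕ, ∃ col : Y → Finset (Fin R), ∀ y, t y < n → (col y).card = d y ∧
      ∀ y' ∈ N' y, t y' < t y → Disjoint (col y) (col y') := by
    intro n
    induction n with
    | zero => exact ⟨fun _ => ∅, fun y hy => absurd hy (Nat.not_lt_zero _)⟩
    | succ n ih =>
      obtain ⟨col, hcol⟩ := ih
      by_cases hex : ∃ y₀, t y₀ = n
      · obtain ⟨y₀, hy₀⟩ := hex
        set B : Finset (Fin R) := ((N' y₀).filter fun y' => t y' < n).biUnion col with hB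
        have hBcard : B.card + d y₀ ≤ R := by
          have h1 : B.card ≤ ∑ y' ∈ (N' y₀).filter (fun y' => t y' < n), d y' := by
            refine (card_biUnion_le).trans (sum_le_sum fun y' hy' => ?_)
            exact ((hcol y' (mem_filter.1 hy').2).1).le
          have h2 : ∑ y' ∈ (N' y₀).filter (fun y' => t y' < n), d y' ≤
              ∑ y' ∈ (N' y₀).erase y₀, d y' := by
            apply sum_le_sum_of_subset
            intro y' hy'
            rw [mem_filter] at hy'
            rw [mem_erase]
            refine ⟨?_, hy'.1⟩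
            rintro rfl
            omega
          have h3 := sum_erase_add (N' y₀) d (hself y₀)
          have h4 := hR y₀
          omega
        have hcompl : d y₀ ≤ (Bᶜ).card := by
          rw [card_compl, Fintype.card_fin]
          omega
        obtain ⟨S, hS, hScard⟩ := exists_subset_card_eq hcompl
        refine ⟨Function.update col y₀ S, fun y hy => ?_⟩
        by_cases hyy : y = y₀
        · subst hyy
          rw [Function.update_self]
          refine ⟨hScard, fun y' hy' hlt => ?_⟩
          have hne : y' ≠ y := by rintro rfl; exact lt_irrefl _ hlt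
          rw [Function.update_of_ne hne]
          rw [disjoint_left]
          intro c hc hc'
          have := hS hc
          rw [mem_compl] at this
          apply this
          rw [hB, mem_biUnion]
          exact ⟨y', mem_filter.2 ⟨hy', by omega⟩, hc'⟩
        · have hyn : t y < n := by
            have : t y ≠ n := fun h => hyy (ht (h.trans hy₀.symm))
            omega
          rw [Function.update_of_ne hyy]
          refine ⟨(hcol y hyn).1, fun y' hy' hlt => ?_⟩
          have hne : y' ≠ y₀ := by rintro rfl; omega
          rw [Function.update_of_ne hne]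
          exact (hcol y hyn).2 y' hy' hlt
      · refine ⟨col, fun y hy => hcol y ?_⟩
        have : t y ≠ n := fun h => hex ⟨y, h⟩
        omega
  obtain ⟨col, hcol⟩ := key ((univ.sup t) + 1)
  refine ⟨col, fun y => hcol y ?_⟩
  have := le_sup (f := t) (mem_univ y)
  omega

/-- `x` is the first neighbour of `y` in the order `s`. -/
def Fst (r : X → Y → Prop) (s : X ≃ Fin (Fintype.card X)) (y : Y) (x : X) : Prop :=
  r x y ∧ ∀ x', r x' y → s x ≤ s x'

theorem fst_unique {r : X → Y → Prop} {s : X ≃ Fin (Fintype.card X)} {y : Y} {x x' : X}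
    (h : Fst r s y x) (h' : Fst r s y x') : x = x' :=
  s.injective (le_antisymm (h.2 x' h'.1) (h'.2 x h.1))

theorem fst_exists {r : X → Y → Prop} (s : X ≃ Fin (Fintype.card X)) {y : Y}
    (h : ∃ x, r x y) : ∃ x, Fst r s y x := by
  obtain ⟨x₀, hx₀⟩ := h
  obtain ⟨x, hx, hmin⟩ := exists_min_image (nY r y) s ⟨x₀, by simp [nY, hx₀]⟩
  refine ⟨x, by simpa [nY] using hx, fun x' hx' => hmin x' (by simp [nY, hx'])⟩

/-- The number of orders in which `x` is the first neighbour of `y`. -/
theorem count (r : X → Y → Prop) (x : X) (y : Y) (hxy : r x y) :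
    (nY r y).card * (univ.filter fun s : X ≃ Fin (Fintype.card X) => Fst r s y x).card =
      Fintype.card (X ≃ Fin (Fintype.card X)) := by
  have hswap : ∀ x' ∈ nY r y,
      (univ.filter fun s : X ≃ Fin (Fintype.card X) => Fst r s y x').card =
      (univ.filter fun s : X ≃ Fin (Fintype.card X) => Fst r s y x).card := by
    intro x' hx'
    have hx'y : r x' y := by simpa [nY] using hx'
    have hsw : ∀ z, r z y → r (Equiv.swap x x' z) y := by
      intro z hz
      rcases eq_or_ne z x with rfl | h1
      · rwa [Equiv.swap_apply_left]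
      · rcases eq_or_ne z x' with rfl | h2
        · rwa [Equiv.swap_apply_right]
        · rwa [Equiv.swap_apply_of_ne_of_ne h1 h2]
    apply card_bij (fun (s : X ≃ Fin (Fintype.card X)) _ => (Equiv.swap x x').trans s)
    · intro s hs
      rw [mem_filter] at hs ⊢
      refine ⟨mem_univ _, hxy, fun z hz => ?_⟩
      show s (Equiv.swap x x' x) ≤ s (Equiv.swap x x' z)
      rw [Equiv.swap_apply_left]
      exact hs.2.2 _ (hsw z hz)
    · intro s _ s' _ h
      ext z
      have := congrArg (fun e : X ≃ Fin (Fintype.card X) => e (Equiv.swap x x' z)) h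
      simp only [Equiv.trans_apply, Equiv.swap_apply_self] at this
      rw [this]
    · intro s hs
      rw [mem_filter] at hs
      refine ⟨(Equiv.swap x x').trans s, ?_, ?_⟩
      · rw [mem_filter]
        refine ⟨mem_univ _, hx'y, fun z hz => ?_⟩
        show s (Equiv.swap x x' x') ≤ s (Equiv.swap x x' z)
        rw [Equiv.swap_apply_right]
        exact hs.2.2 _ (hsw z hz)
      · ext z
        simp
  have hsum : ∑ x' ∈ nY r y,
      (univ.filter fun s : X ≃ Fin (Fintype.card X) => Fst r s y x').card =
      Fintype.card (X ≃ Fin (Fintype.card X)) := by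
    rw [← card_biUnion]
    · rw [show Fintype.card (X ≃ Fin (Fintype.card X)) =
        (univ : Finset (X ≃ Fin (Fintype.card X))).card from rfl]
      congr 1
      ext s
      simp only [mem_biUnion, mem_filter, mem_univ, true_and, iff_true]
      obtain ⟨x', hx'⟩ := fst_exists s ⟨x, hxy⟩
      exact ⟨x', by simp [nY, hx'.1], hx'⟩
    · intro x₁ _ x₂ _ hne
      rw [Function.onFun, disjoint_left]
      intro s h1 h2
      rw [mem_filter] at h1 h2
      exact hne (fst_unique h1.2 h2.2)
  rw [← hsum, sum_congr rfl hswap, sum_const, smul_eq_mul]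

/-- Colour sets for one order. -/
theorem colours (r : X → Y → Prop) (R : ℕ) (hR : ∀ x, ∑ y ∈ nX r x, (nY r y).card ≤ R)
    (s : X ≃ Fin (Fintype.card X)) :
    ∃ col : Y → Finset (Fin R), (∀ x y, Fst r s y x → (col y).card = (nY r y).card) ∧
      ∀ x y y', Fst r s y x → r x y' → y ≠ y' → Disjoint (col y) (col y') := by
  -- the first neighbour
  let p : Y → Option X := fun y => if h : ∃ x, r x y then some (fst_exists s h).choose else none
  have hp : ∀ y x, Fst r s y x → p y = some x := by
    intro y x h
    have hex : ∃ x, r x y := ⟨x, h.1⟩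
    simp only [p, dif_pos hex]
    rw [fst_unique (fst_exists s hex).choose_spec h]
  have hp' : ∀ y, (¬ ∃ x, r x y) → p y = none := by
    intro y h
    simp only [p, dif_neg h]
  let d : Y → ℕ := fun y => (nY r y).card
  let N' : Y → Finset Y := fun y => match p y with
    | some x => nX r x
    | none => {y}
  let e := Fintype.equivFin Y
  let t : Y → ℕ := fun y => (match p y with
    | some x => (s x : ℕ)
    | none => 0) * (Fintype.card Y + 1) + e y
  have hN : ∀ y x, Fst r s y x → N' y = nX r x := by
    intro y x h
    simp only [N', hp y x h]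
  have hN0 : ∀ y, (¬ ∃ x, r x y) → N' y = {y} := by
    intro y h
    simp only [N', hp' y h]
  have htx : ∀ y x, Fst r s y x → t y = (s x : ℕ) * (Fintype.card Y + 1) + e y := by
    intro y x h
    simp only [t, hp y x h]
  have hself : ∀ y, y ∈ N' y := by
    intro y
    by_cases h : ∃ x, r x y
    · obtain ⟨x, hx⟩ := fst_exists s h
      rw [hN y x hx]
      simp [nX, hx.1]
    · rw [hN0 y h]
      exact mem_singleton_self y
  have hRN : ∀ y, ∑ y' ∈ N' y, d y' ≤ R := by
    intro y
    by_cases h : ∃ x, r x y
    · obtain ⟨x, hx⟩ := fst_exists s h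
      rw [hN y x hx]
      exact hR x
    · rw [hN0 y h, sum_singleton]
      have : nY r y = ∅ := by
        ext x
        simp only [nY, mem_filter, mem_univ, true_and, notMem_empty, iff_false]
        exact fun hx => h ⟨x, hx⟩
      show (nY r y).card ≤ R
      rw [this]
      simp
  have ht : Function.Injective t := by
    intro y y' h
    have h1 : (e y : ℕ) < Fintype.card Y + 1 := by have := (e y).2; omega
    have h2 : (e y' : ℕ) < Fintype.card Y + 1 := by have := (e y').2; omega
    have h3 : t y % (Fintype.card Y + 1) = t y' % (Fintype.card Y + 1) := by rw [h]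
    simp only [t, Nat.mul_add_mod_self_right, Nat.mod_eq_of_lt h1, Nat.mod_eq_of_lt h2] at h3
    exact e.injective (Fin.ext h3)
  obtain ⟨col, hcol⟩ := greedy R d N' hself hRN t ht
  refine ⟨col, fun x y _ => (hcol y).1, fun x y y' hx hr hne => ?_⟩
  have hy' : y' ∈ N' y := by
    rw [hN y x hx]
    simp [nX, hr]
  rcases lt_trichotomy (t y') (t y) with h | h | h
  · exact (hcol y).2 y' hy' h
  · exact absurd (ht h).symm hne
  · obtain ⟨x', hx'⟩ := fst_exists s ⟨x, hr⟩
    have hle : s x' ≤ s x := hx'.2 x hr
    have heq : x' = x := by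
      by_contra hxx
      have hlt : (s x' : ℕ) < s x := by
        have : (s x' : ℕ) ≠ s x := fun h => hxx (s.injective (Fin.ext h))
        exact lt_of_le_of_ne hle this
      rw [htx y x hx, htx y' x' hx'] at h
      have h2 : (e y' : ℕ) < Fintype.card Y + 1 := by have := (e y').2; omega
      have h3 : ((s x' : ℕ) + 1) * (Fintype.card Y + 1) ≤ (s x : ℕ) * (Fintype.card Y + 1) :=
        Nat.mul_le_mul_right _ hlt
      have h4 : ((s x' : ℕ) + 1) * (Fintype.card Y + 1) =
        (s x' : ℕ) * (Fintype.card Y + 1) + (Fintype.card Y + 1) := by ring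
      omega
    subst heq
    refine ((hcol y').2 y ?_ h).symm
    rw [hN y' x' hx']
    simp [nX, hx.1]

end Frac

/-- The exact fractional theorem: a probability distribution on induced matchings which covers
every edge with probability at least `1 / R`, where `R` bounds `∑ y ∈ N(x), d(y)`. -/
theorem frac {X Y : Type} [Fintype X] [Fintype Y] (r : X → Y → Prop) (R : ℕ) (hR0 : 0 < R)
    (hR : ∀ x, ∑ y ∈ nX r x, (nY r y).card ≤ R) :
    ∃ (Om : Type) (_ : Fintype Om) (_ : Nonempty Om) (M : Om → Finset (X × Y)),
      (∀ w, M w ⊆ edges r) ∧ (∀ w, IndMatch r (M w)) ∧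
      ∀ e ∈ edges r, Fintype.card Om ≤ R * (univ.filter fun w => e ∈ M w).card := by
  choose col hcol hdis using fun s => Frac.colours r R hR s
  refine ⟨(X ≃ Fin (Fintype.card X)) × Fin R, inferInstance, ?_, fun w =>
    univ.filter fun e : X × Y => Frac.Fst r w.1 e.2 e.1 ∧ w.2 ∈ col w.1 e.2, ?_, ?_, ?_⟩
  · exact ⟨(Fintype.equivFin X, ⟨0, hR0⟩)⟩
  · intro w e he
    rw [mem_filter] at he
    rw [edges, mem_filter]
    exact ⟨mem_univ _, he.2.1.1⟩
  · intro w e he e' he' hne hr
    rw [mem_filter] at he he'
    have hyne : e.2 ≠ e'.2 := by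
      intro h
      apply hne
      refine Prod.ext ?_ h
      have h1 := he.2.1
      have h2 := he'.2.1
      rw [← h] at h2
      exact Frac.fst_unique h1 h2
    exact disjoint_left.1 (hdis w.1 e.1 e.2 e'.2 he.2.1 hr hyne) he.2.2 he'.2.2
  · intro e he
    rw [edges, mem_filter] at he
    have hr := he.2
    have hcount := Frac.count r e.1 e.2 hr
    have hcard : (univ.filter fun w : (X ≃ Fin (Fintype.card X)) × Fin R =>
        e ∈ univ.filter fun e : X × Y => Frac.Fst r w.1 e.2 e.1 ∧ w.2 ∈ col w.1 e.2).card =
        (nY r e.2).card *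
          (univ.filter fun s : X ≃ Fin (Fintype.card X) => Frac.Fst r s e.2 e.1).card := by
      have heq : (univ.filter fun w : (X ≃ Fin (Fintype.card X)) × Fin R =>
          e ∈ univ.filter fun e : X × Y => Frac.Fst r w.1 e.2 e.1 ∧ w.2 ∈ col w.1 e.2) =
          (univ.filter fun s : X ≃ Fin (Fintype.card X) => Frac.Fst r s e.2 e.1).biUnion
            (fun s => (col s e.2).map ⟨fun c => (s, c), fun a b h => (Prod.ext_iff.1 h).2⟩) := by
        ext w
        simp only [mem_filter, mem_univ, true_and, mem_biUnion, mem_map,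
          Function.Embedding.coeFn_mk]
        constructor
        · rintro ⟨h1, h2⟩
          exact ⟨w.1, h1, w.2, h2, rfl⟩
        · rintro ⟨s, h1, c, h2, rfl⟩
          exact ⟨h1, h2⟩
      rw [heq, card_biUnion]
      · rw [sum_congr rfl (fun s hs => ?_), sum_const, smul_eq_mul, mul_comm]
        rw [card_map, hcol s e.1 e.2 (mem_filter.1 hs).2]
      · intro s _ s' _ hne
        rw [Function.onFun, disjoint_left]
        intro w h1 h2
        rw [mem_map] at h1 h2
        obtain ⟨c, _, rfl⟩ := h1
        obtain ⟨c', _, h⟩ := h2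
        exact hne (Prod.ext_iff.1 h).1.symm
    rw [hcard, hcount, Fintype.card_prod, Fintype.card_fin, mul_comm]

end Pool.Agent.SEC
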