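import Pool.Agent.Helper66.SEC.Iterate

set_option autoImplicit false

namespace Pool.Agent.SEC

open Finset
open scoped Classical

/-- The strong edge colouring of a bipartite graph. -/
theorem main_graph' (ε : ℝ) (hε : 0 < ε) : ∃ Δ₀ : ℕ, ∀ (V : Type) [Fintype V]
    (G : SimpleGraph V) (Δ : ℕ), G.Colorable 2 → Δ₀ ≤ Δ →
      (∀ v, (univ.filter (fun w => G.Adj v w)).card ≤ Δ) →
      ∃ c : V → V → ℕ,
        (∀ u v : V, G.Adj u v → c u v = c v u) ∧
        (∀ u v : V, G.Adj u v → ((c u v : ℝ) + 1) ≤ (1 + ε) * (Δ : ℝ) ^ 2) ∧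
        (∀ u v x y : V, G.Adj u v → G.Adj x y →
          ¬ ((u = x ∧ v = y) ∨ (u = y ∧ v = x)) →
          (u = x ∨ u = y ∨ v = x ∨ v = y ∨
            G.Adj u x ∨ G.Adj u y ∨ G.Adj v x ∨ G.Adj v y) →
          c u v ≠ c x y) := by
  obtain ⟨Δ₀, hmain⟩ := main_rel' ε hε
  refine ⟨Δ₀, fun V _ G Δ hcol hΔ hdeg => ?_⟩
  obtain ⟨C⟩ := hcol
  have hC : ∀ u v, G.Adj u v → C u ≠ C v := fun u v h => C.valid h
  have h01 : ∀ v, C v ≠ 0 → C v = 1 := by
    intro v h
    have := Fin.exists_fin_two (p := fun i => C v = i)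
    rcases (this.mp ⟨C v, rfl⟩) with h' | h'
    · exact absurd h' h
    · exact h'
  have hXd : ∀ x : {v : V // C v = 0}, (nX (fun (x : {v : V // C v = 0})
      (y : {v : V // C v = 1}) => G.Adj x.1 y.1) x).card ≤ Δ := by
    intro x
    refine le_trans ?_ (hdeg x.1)
    refine card_le_card_of_injOn (fun y => y.1) ?_ (fun a _ b _ h => Subtype.ext h)
    intro y hy
    simpa [nX] using hy
  have hYd : ∀ y : {v : V // C v = 1}, (nY (fun (x : {v : V // C v = 0})
      (y : {v : V // C v = 1}) => G.Adj x.1 y.1) y).card ≤ Δ := by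
    intro y
    refine le_trans ?_ (hdeg y.1)
    refine card_le_card_of_injOn (fun x => x.1) ?_ (fun a _ b _ h => Subtype.ext h)
    intro x hx
    simpa [nY, G.adj_comm] using hx
  obtain ⟨c, hc1, hc2⟩ := hmain {v : V // C v = 0} {v : V // C v = 1}
    (fun x y => G.Adj x.1 y.1) Δ hΔ hXd hYd
  -- colour of an ordered pair
  let f : V → V → ℕ := fun u v =>
    if h : C u = 0 ∧ C v = 1 then c (⟨u, h.1⟩, ⟨v, h.2⟩)
    else if h : C v = 0 ∧ C u = 1 then c (⟨v, h.1⟩, ⟨u, h.2⟩) else 0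
  have f0 : ∀ u v (hu : C u = 0) (hv : C v = 1), f u v = c (⟨u, hu⟩, ⟨v, hv⟩) := by
    intro u v hu hv
    simp only [f]
    rw [dif_pos ⟨hu, hv⟩]
  have f1 : ∀ u v (hu : C u = 0) (hv : C v = 1), f v u = c (⟨u, hu⟩, ⟨v, hv⟩) := by
    intro u v hu hv
    simp only [f]
    have hn : ¬ (C v = 0 ∧ C u = 1) := by
      rw [hv, hu]; simp
    rw [dif_neg hn, dif_pos ⟨hu, hv⟩]
  have key : ∀ u v x y (hu : C u = 0) (hv : C v = 1) (hx : C x = 0) (hy : C y = 1),
      G.Adj u v → G.Adj x y → ¬ (u = x ∧ v = y) →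
      (u = x ∨ v = y ∨ G.Adj u y ∨ G.Adj v x) →
      c (⟨u, hu⟩, ⟨v, hv⟩) ≠ c (⟨x, hx⟩, ⟨y, hy⟩) := by
    intro u v x y hu hv hx hy huv hxy hne hor hcc
    have hne' : ((⟨u, hu⟩, ⟨v, hv⟩) : {v : V // C v = 0} × {v : V // C v = 1}) ≠
        (⟨x, hx⟩, ⟨y, hy⟩) := by
      intro h
      rw [Prod.mk.injEq, Subtype.mk.injEq, Subtype.mk.injEq] at h
      exact hne h
    have h1 := hc2 (⟨u, hu⟩, ⟨v, hv⟩) (⟨x, hx⟩, ⟨y, hy⟩) huv hxy hne' hcc
    have h2 := hc2 (⟨x, hx⟩, ⟨y, hy⟩) (⟨u, hu⟩, ⟨v, hv⟩) hxy huv hne'.symm hcc.symm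
    dsimp only at h1 h2
    rcases hor with h | h | h | h
    · subst h; exact h1 hxy
    · subst h; exact h1 huv
    · exact h1 h
    · exact h2 h.symm
  have cases' : ∀ u v, G.Adj u v → (C u = 0 ∧ C v = 1) ∨ (C u = 1 ∧ C v = 0) := by
    intro u v h
    by_cases hu : C u = 0
    · left
      exact ⟨hu, h01 v (fun hv => hC u v h (hu.trans hv.symm))⟩
    · right
      have hu1 := h01 u hu
      refine ⟨hu1, ?_⟩
      by_contra hv
      exact hC u v h (hu1.trans (h01 v hv).symm)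
  have same : ∀ u x, C u = C x → ¬ G.Adj u x := fun u x h h' => hC u x h' h
  refine ⟨f, ?_, ?_, ?_⟩
  · intro u v h
    rcases cases' u v h with ⟨hu, hv⟩ | ⟨hu, hv⟩
    · rw [f0 u v hu hv, f1 u v hu hv]
    · rw [f0 v u hv hu, f1 v u hv hu]
  · intro u v h
    rcases cases' u v h with ⟨hu, hv⟩ | ⟨hu, hv⟩
    · rw [f0 u v hu hv]; exact hc1 (⟨u, hu⟩, ⟨v, hv⟩) h
    · rw [f1 v u hv hu]; exact hc1 (⟨v, hv⟩, ⟨u, hu⟩) h.symm
  · intro u v x y huv hxy hne hor
    rcases cases' u v huv with ⟨hu, hv⟩ | ⟨hu, hv⟩ <;>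
      rcases cases' x y hxy with ⟨hx, hy⟩ | ⟨hx, hy⟩
    · rw [f0 u v hu hv, f0 x y hx hy]
      refine key u v x y hu hv hx hy huv hxy (fun h => hne (Or.inl h)) ?_
      rcases hor with h | h | h | h | h | h | h | h
      · exact Or.inl h
      · subst h; rw [hu] at hy; exact absurd hy (by simp)
      · subst h; rw [hv] at hx; exact absurd hx (by simp)
      · exact Or.inr (Or.inl h)
      · exact absurd h (same u x (hu.trans hx.symm))
      · exact Or.inr (Or.inr (Or.inl h))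
      · exact Or.inr (Or.inr (Or.inr h))
      · exact absurd h (same v y (hv.trans hy.symm))
    · rw [f0 u v hu hv, f1 y x hy hx]
      refine key u v y x hu hv hy hx huv hxy.symm (fun h => hne (Or.inr h)) ?_
      rcases hor with h | h | h | h | h | h | h | h
      · subst h; rw [hu] at hx; exact absurd hx (by simp)
      · exact Or.inl h
      · exact Or.inr (Or.inl h)
      · subst h; rw [hv] at hy; exact absurd hy (by simp)
      · exact Or.inr (Or.inr (Or.inl h))
      · exact absurd h (same u y (hu.trans hy.symm))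
      · exact absurd h (same v x (hv.trans hx.symm))
      · exact Or.inr (Or.inr (Or.inr h))
    · rw [f1 v u hv hu, f0 x y hx hy]
      refine key v u x y hv hu hx hy huv.symm hxy (fun h => hne (Or.inr ⟨h.2, h.1⟩)) ?_
      rcases hor with h | h | h | h | h | h | h | h
      · subst h; rw [hu] at hx; exact absurd hx (by simp)
      · exact Or.inr (Or.inl h)
      · exact Or.inl h
      · subst h; rw [hv] at hy; exact absurd hy (by simp)
      · exact Or.inr (Or.inr (Or.inr h))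
      · exact absurd h (same u y (hu.trans hy.symm))
      · exact absurd h (same v x (hv.trans hx.symm))
      · exact Or.inr (Or.inr (Or.inl h))
    · rw [f1 v u hv hu, f1 y x hy hx]
      refine key v u y x hv hu hy hx huv.symm hxy.symm (fun h => hne (Or.inl ⟨h.2, h.1⟩)) ?_
      rcases hor with h | h | h | h | h | h | h | h
      · exact Or.inr (Or.inl h)
      · subst h; rw [hu] at hy; exact absurd hy (by simp)
      · subst h; rw [hv] at hx; exact absurd hx (by simp)
      · exact Or.inl h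
      · exact absurd h (same u x (hu.trans hx.symm))
      · exact Or.inr (Or.inr (Or.inr h))
      · exact Or.inr (Or.inr (Or.inl h))
      · exact absurd h (same v y (hv.trans hy.symm))

end Pool.Agent.SEC
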