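import Pool.Agent.Helper66.SEC.Defs

/-!
# Strong edge colouring of bipartite graphs: the numbers

The choice of the parameters of the phases.
-/

set_option autoImplicit false

namespace Pool.Agent.SEC

open Finset
open scoped Classical

namespace Numbers

/-- a multiple of the logarithm is eventually below any small multiple of the variable -/
theorem ev_log (C c : ℝ) (hc : 0 < c) :
    ∃ N : ℕ, ∀ Δ : ℕ, N ≤ Δ → C * Real.log Δ + 2 ≤ c * Δ := by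
  have h1 : 0 < c / (2 * (|C| + 1)) := by positivity
  have h2 := (Real.isLittleO_log_id_atTop.bound h1)
  have h3 : ∀ᶠ n : ℕ in Filter.atTop,
      ‖Real.log (n : ℝ)‖ ≤ c / (2 * (|C| + 1)) * ‖id (n : ℝ)‖ :=
    (tendsto_natCast_atTop_atTop (R := ℝ)).eventually h2
  obtain ⟨N1, hN1⟩ := Filter.eventually_atTop.1 h3
  refine ⟨max N1 ⌈4 / c⌉₊, fun Δ hΔ => ?_⟩
  have h4 := hN1 Δ (le_trans (le_max_left _ _) hΔ)
  have h5 : 4 / c ≤ (Δ : ℝ) :=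
    le_trans (Nat.le_ceil _) (by exact_mod_cast le_trans (le_max_right _ _) hΔ)
  have h6 : 4 ≤ c * Δ := by
    rw [div_le_iff₀ hc] at h5
    linarith
  have h7 : (0 : ℝ) ≤ Δ := Nat.cast_nonneg _
  simp only [id, Real.norm_eq_abs, abs_of_nonneg h7] at h4
  have h8 : C * Real.log Δ ≤ |C| * (c / (2 * (|C| + 1)) * Δ) := by
    calc C * Real.log Δ ≤ |C * Real.log Δ| := le_abs_self _
      _ = |C| * |Real.log Δ| := abs_mul _ _
      _ ≤ |C| * (c / (2 * (|C| + 1)) * Δ) := mul_le_mul_of_nonneg_left h4 (abs_nonneg _)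
  have h9 : |C| * (c / (2 * (|C| + 1)) * Δ) ≤ c / 2 * Δ := by
    have h10 : |C| * (c / (2 * (|C| + 1)) * Δ) = (|C| / (|C| + 1)) * (c / 2 * Δ) := by
      field_simp
    have h11 : |C| / (|C| + 1) ≤ 1 := by
      rw [div_le_one (by positivity)]
      linarith
    rw [h10]
    have h12 : 0 ≤ c / 2 * (Δ : ℝ) := by positivity
    calc (|C| / (|C| + 1)) * (c / 2 * Δ) ≤ 1 * (c / 2 * Δ) :=
          mul_le_mul_of_nonneg_right h11 h12
      _ = c / 2 * Δ := one_mul _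
  linarith

theorem exp_neg_le {u : ℝ} (hu : 0 ≤ u) : Real.exp (-u) ≤ 1 - u + u ^ 2 / 2 := by
  have h := Real.quadratic_le_exp_of_nonneg hu
  have hpos : 0 < 1 + u + u ^ 2 / 2 := by positivity
  rw [Real.exp_neg]
  have h1 : (Real.exp u)⁻¹ ≤ (1 + u + u ^ 2 / 2)⁻¹ := inv_anti₀ hpos h
  refine le_trans h1 ?_
  rw [inv_le_iff_one_le_mul₀ hpos]
  nlinarith [sq_nonneg (u ^ 2), sq_nonneg u]

/-- geometric sum bound -/
theorem geom_le {ρ : ℝ} (h0 : 0 ≤ ρ) (h1 : ρ < 1) (T : ℕ) :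
    ∑ i ∈ range T, ρ ^ i ≤ 1 / (1 - ρ) := by
  have h2 : 0 < 1 - ρ := by linarith
  rw [le_div_iff₀ h2]
  have h3 := geom_sum_mul ρ T
  have h4 : 0 ≤ ρ ^ T := pow_nonneg h0 T
  have h5 : (∑ i ∈ range T, ρ ^ i) * (1 - ρ) = 1 - ρ ^ T := by
    have : (∑ i ∈ range T, ρ ^ i) * (1 - ρ) = -((∑ i ∈ range T, ρ ^ i) * (ρ - 1)) := by ring
    rw [this, h3]
    ring
  rw [h5]
  linarith

/-- the condition of the local lemma -/
theorem lll_cond (K : ℕ) (Δ : ℕ) (b : ℝ) (hΔ1 : 1 ≤ (Δ : ℝ))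
    (hΔ : 24 * (2 : ℝ) ^ (2 * K + 6) ≤ Δ) (hb0 : 0 ≤ b)
    (hb : b * (Δ : ℝ) ^ (4 * K + 20) ≤ 1) :
    4 * ((1 / (1 / (Δ : ℝ) ^ 3) + 1 + Δ) * b) * (((Δ : ℝ) ^ 2 + 1) ^ (2 * K + 6) + 1) ≤ 1 := by
  set x : ℝ := (Δ : ℝ) with hx
  have hx0 : 0 < x := by linarith
  have h1 : 1 / (1 / x ^ 3) = x ^ 3 := by
    rw [one_div_one_div]
  rw [h1]
  have h2 : x ^ 3 + 1 + x ≤ 3 * x ^ 3 := by
    have h3 : 1 ≤ x ^ 3 := one_le_pow₀ hΔ1
    have h4 : x ≤ x ^ 3 := by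
      calc x = x ^ 1 := (pow_one x).symm
        _ ≤ x ^ 3 := pow_le_pow_right₀ hΔ1 (by norm_num)
    linarith
  have h5 : (x ^ 2 + 1) ^ (2 * K + 6) + 1 ≤ 2 * 2 ^ (2 * K + 6) * x ^ (4 * K + 12) := by
    have h6 : x ^ 2 + 1 ≤ 2 * x ^ 2 := by
      have : 1 ≤ x ^ 2 := one_le_pow₀ hΔ1
      linarith
    have h7 : (x ^ 2 + 1) ^ (2 * K + 6) ≤ (2 * x ^ 2) ^ (2 * K + 6) :=
      pow_le_pow_left₀ (by positivity) h6 _
    have h8 : (2 * x ^ 2) ^ (2 * K + 6) = 2 ^ (2 * K + 6) * x ^ (4 * K + 12) := by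
      rw [mul_pow, ← pow_mul]
      congr 2
      ring
    have h9 : (1 : ℝ) ≤ 2 ^ (2 * K + 6) * x ^ (4 * K + 12) := by
      have h10 : (1 : ℝ) ≤ 2 ^ (2 * K + 6) := one_le_pow₀ (by norm_num)
      have h11 : (1 : ℝ) ≤ x ^ (4 * K + 12) := one_le_pow₀ hΔ1
      calc (1 : ℝ) = 1 * 1 := (one_mul 1).symm
        _ ≤ 2 ^ (2 * K + 6) * x ^ (4 * K + 12) :=
          mul_le_mul h10 h11 zero_le_one (by positivity)
    rw [h8] at h7
    linarith
  have h12 : 4 * ((x ^ 3 + 1 + x) * b) * ((x ^ 2 + 1) ^ (2 * K + 6) + 1) ≤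
      4 * ((3 * x ^ 3) * b) * (2 * 2 ^ (2 * K + 6) * x ^ (4 * K + 12)) := by
    have h13 : (x ^ 3 + 1 + x) * b ≤ (3 * x ^ 3) * b := mul_le_mul_of_nonneg_right h2 hb0
    have h14 : 0 ≤ (x ^ 2 + 1) ^ (2 * K + 6) + 1 := by positivity
    have h15 : 0 ≤ 4 * ((3 * x ^ 3) * b) := by positivity
    calc 4 * ((x ^ 3 + 1 + x) * b) * ((x ^ 2 + 1) ^ (2 * K + 6) + 1)
        ≤ 4 * ((3 * x ^ 3) * b) * ((x ^ 2 + 1) ^ (2 * K + 6) + 1) :=
          mul_le_mul_of_nonneg_right (by linarith) h14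
      _ ≤ 4 * ((3 * x ^ 3) * b) * (2 * 2 ^ (2 * K + 6) * x ^ (4 * K + 12)) :=
          mul_le_mul_of_nonneg_left h5 h15
  refine le_trans h12 ?_
  have h16 : 4 * ((3 * x ^ 3) * b) * (2 * 2 ^ (2 * K + 6) * x ^ (4 * K + 12)) =
      (24 * 2 ^ (2 * K + 6)) * (b * x ^ (4 * K + 15)) := by
    have : x ^ (4 * K + 15) = x ^ 3 * x ^ (4 * K + 12) := by
      rw [← pow_add]
      congr 1
      ring
    rw [this]
    ring
  rw [h16]
  have h17 : 0 ≤ b * x ^ (4 * K + 15) := by positivity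
  calc (24 * 2 ^ (2 * K + 6)) * (b * x ^ (4 * K + 15)) ≤ x * (b * x ^ (4 * K + 15)) :=
        mul_le_mul_of_nonneg_right hΔ h17
    _ = b * x ^ (4 * K + 16) := by
        have : x ^ (4 * K + 16) = x * x ^ (4 * K + 15) := by
          rw [← pow_succ']
        rw [this]
        ring
    _ ≤ b * x ^ (4 * K + 20) :=
        mul_le_mul_of_nonneg_left (pow_le_pow_right₀ hΔ1 (by omega)) hb0
    _ ≤ 1 := hb

theorem exp_part {x m J D w a : ℝ} (hx : 0 < x) (hm : 0 < m) (hD : 0 < D)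
    (hJ : D * x / m ≤ J) (ha : 2 * a ≤ 1) (hw : (1 - 2 * a) / x ≤ w) :
    (1 - 2 * a) / m ≤ J * (w / D) := by
  have h0 : 0 ≤ (1 - 2 * a) / x := div_nonneg (by linarith) hx.le
  have hw0 : 0 ≤ w := le_trans h0 hw
  have h1 : D * x / m * (w / D) ≤ J * (w / D) :=
    mul_le_mul_of_nonneg_right hJ (div_nonneg hw0 hD.le)
  have h2 : D * x / m * (w / D) = x * w / m := by
    field_simp
  have h3 : 1 - 2 * a ≤ x * w := by
    rw [div_le_iff₀ hx] at hw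
    linarith
  have h4 : (1 - 2 * a) / m ≤ x * w / m := div_le_div_of_nonneg_right h3 hm.le
  linarith

/-- the main inequality of one phase -/
theorem step {x m J D D' a π s κ k r : ℝ} (hx : 0 < x) (hm : 0 < m) (hD : 0 < D)
    (hJ : D * x / m ≤ J) (ha : 2 * a ≤ 1) (hπ : 1 - a ≤ π)
    (hsmall : s * x + k * κ ^ 2 / (2 * x) ≤ a)
    (hDr : D ≤ r * x + 1) (hD' : r * Real.exp (-((1 - 4 * a) / m)) * x ≤ D')
    (hk : k + 1 ≤ (r * (Real.exp (-((1 - 3 * a) / m)) - Real.exp (-((1 - 2 * a) / m)))) * x)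
    (hk0 : 0 ≤ k) (ha0 : 0 ≤ a) :
    D * Real.exp (-(J * ((π / x - s) / D - k * ((κ / x) ^ 2 / D) / 2))) ≤
      Real.exp (-(a / m)) * (D' + 1 - k) := by
  have h1 : (π / x - s) / D - k * ((κ / x) ^ 2 / D) / 2 =
      (π / x - s - k * (κ / x) ^ 2 / 2) / D := by
    ring
  rw [h1]
  have hw : (1 - 2 * a) / x ≤ π / x - s - k * (κ / x) ^ 2 / 2 := by
    rw [div_le_iff₀ hx]
    have h2 : (π / x - s - k * (κ / x) ^ 2 / 2) * x = π - (s * x + k * κ ^ 2 / (2 * x)) := by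
      field_simp
      ring
    rw [h2]
    linarith
  have h3 := exp_part hx hm hD hJ ha hw
  have h4 : Real.exp (-(J * ((π / x - s - k * (κ / x) ^ 2 / 2) / D))) ≤
      Real.exp (-((1 - 2 * a) / m)) := Real.exp_le_exp.2 (by linarith)
  set E2 := Real.exp (-((1 - 2 * a) / m)) with hE2
  set E3 := Real.exp (-((1 - 3 * a) / m)) with hE3
  set E4 := Real.exp (-((1 - 4 * a) / m)) with hE4
  set B := Real.exp (-(a / m)) with hB
  have hB1 : B ≤ 1 := by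
    rw [hB]
    apply Real.exp_le_one_iff.2
    have : 0 ≤ a / m := div_nonneg ha0 hm.le
    linarith
  have hB0 : 0 ≤ B := (Real.exp_pos _).le
  have hBE : B * E4 = E3 := by
    rw [hB, hE4, hE3, ← Real.exp_add]
    congr 1
    ring
  have hE21 : E2 ≤ 1 := by
    rw [hE2]
    apply Real.exp_le_one_iff.2
    have : 0 ≤ (1 - 2 * a) / m := div_nonneg (by linarith) hm.le
    linarith
  have hE20 : 0 ≤ E2 := (Real.exp_pos _).le
  calc D * Real.exp (-(J * ((π / x - s - k * (κ / x) ^ 2 / 2) / D))) ≤ D * E2 :=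
        mul_le_mul_of_nonneg_left h4 hD.le
    _ ≤ (r * x + 1) * E2 := mul_le_mul_of_nonneg_right hDr hE20
    _ ≤ r * x * E2 + 1 := by nlinarith
    _ ≤ r * x * E3 - k := by nlinarith
    _ ≤ B * (D' + 1 - k) := by
        have h5 : B * (r * E4 * x) ≤ B * D' := mul_le_mul_of_nonneg_left hD' hB0
        have h6 : B * (r * E4 * x) = r * x * E3 := by
          rw [← hBE]; ring
        have h7 : B * k ≤ 1 * k := mul_le_mul_of_nonneg_right hB1 hk0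
        nlinarith

/-- the bound for the sum of the geometric sequence -/
theorem geo_bound {a m : ℝ} (ha0 : 0 < a) (ha : a ≤ 1 / 20) (hm : m = 1 / (2 * a)) :
    1 / (1 - Real.exp (-((1 - 4 * a) / m))) / m ≤ 1 + 10 * a := by
  have hm0 : 0 < m := by rw [hm]; positivity
  set u := (1 - 4 * a) / m with hu
  have hu' : u = (1 - 4 * a) * (2 * a) := by
    rw [hu, hm]; field_simp
  have hu0 : 0 < u := by
    rw [hu']
    apply mul_pos <;> linarith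
  have h1 := exp_neg_le hu0.le
  have h2 : u * (1 - a) ≤ 1 - Real.exp (-u) := by
    have h3 : u ^ 2 / 2 ≤ u * a := by
      have : u ≤ 2 * a := by rw [hu']; nlinarith
      nlinarith
    nlinarith
  have h4 : 0 < 1 - Real.exp (-u) := by
    have : 0 < u * (1 - a) := mul_pos hu0 (by linarith)
    linarith
  have h5 : 1 - 5 * a ≤ (1 - Real.exp (-u)) * m := by
    have h6 : u * (1 - a) * m ≤ (1 - Real.exp (-u)) * m := mul_le_mul_of_nonneg_right h2 hm0.le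
    have h7 : u * (1 - a) * m = (1 - 4 * a) * (1 - a) := by
      rw [hu]; field_simp
    rw [h7] at h6
    nlinarith [sq_nonneg a]
  have h8 : 0 < (1 - Real.exp (-u)) * m := mul_pos h4 hm0
  rw [div_div, div_le_iff₀ h8]
  have h9 : 1 ≤ (1 + 10 * a) * (1 - 5 * a) := by nlinarith
  have h10 : (1 + 10 * a) * (1 - 5 * a) ≤ (1 + 10 * a) * ((1 - Real.exp (-u)) * m) :=
    mul_le_mul_of_nonneg_left h5 (by linarith)
  linarith

end Numbers

open Numbers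

/-- For every `ε` there are `H`, `K`, the number of phases `T`, and for all large `Δ` the
parameters of the phases. -/
theorem numbers (ε : ℝ) (hε : 0 < ε) : ∃ H K T : ℕ, 0 < H ∧ ∃ Δ₀ : ℕ, ∀ Δ : ℕ, Δ₀ ≤ Δ →
    0 < Δ ∧ K ≤ H * Δ ∧ ∃ (D J : ℕ → ℕ) (k : ℕ) (β δ' : ℝ), D 0 = Δ ∧ 0 ≤ β ∧ 0 < δ' ∧
      (∀ i < T, 0 < D i ∧ k ≤ D (i + 1) ∧
        D i * Real.exp (-(J i * (((1 - 1 / H - Real.exp (-(K / H))) / Δ - i * δ') / D i -
          k * (((K : ℝ) / (H * Δ)) ^ 2 / D i) / 2))) ≤ β * (D (i + 1) + 1 - k)) ∧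
      4 * ((1 / δ' + 1 + Δ) * β ^ k) * (((Δ : ℝ) ^ 2 + 1) ^ (2 * K + 6) + 1) ≤ 1 ∧
      ((∑ i ∈ range T, J i : ℕ) : ℝ) + 2 * Δ * D T + 1 ≤ (1 + ε) * (Δ : ℝ) ^ 2 := by
  -- the constants
  obtain ⟨a, ha0, ha, haε⟩ : ∃ a : ℝ, 0 < a ∧ a ≤ 1 / 20 ∧ 20 * a ≤ ε := by
    refine ⟨min ε 1 / 20, by positivity, ?_, ?_⟩
    · have := min_le_right ε 1
      linarith
    · have := min_le_left ε 1
      linarith
  obtain ⟨H, hH0, hH⟩ : ∃ H : ℕ, 0 < H ∧ 2 / a ≤ (H : ℝ) := by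
    refine ⟨⌈2 / a⌉₊, Nat.ceil_pos.2 (by positivity), Nat.le_ceil _⟩
  have hH0' : (0 : ℝ) < H := by exact_mod_cast hH0
  have hH1 : 1 / (H : ℝ) ≤ a / 2 := by
    rw [div_le_iff₀ hH0']
    rw [div_le_iff₀ ha0] at hH
    linarith
  have hHe : Real.exp (-(H : ℝ)) ≤ a / 2 := by
    rw [Real.exp_neg]
    refine le_trans ?_ hH1
    rw [one_div]
    apply inv_anti₀ hH0'
    have := Real.add_one_le_exp (H : ℝ)
    linarith
  obtain ⟨m, hm⟩ : ∃ m : ℝ, m = 1 / (2 * a) := ⟨_, rfl⟩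
  have hm0 : 0 < m := by rw [hm]; positivity
  obtain ⟨ρ, hρ⟩ : ∃ ρ : ℝ, ρ = Real.exp (-((1 - 4 * a) / m)) := ⟨_, rfl⟩
  have hρ0 : 0 < ρ := by rw [hρ]; exact Real.exp_pos _
  have hρ1 : ρ < 1 := by
    rw [hρ]
    apply Real.exp_lt_one_iff.2
    have : 0 < (1 - 4 * a) / m := div_pos (by linarith) hm0
    linarith
  obtain ⟨T, hT⟩ := exists_pow_lt_of_lt_one (half_pos ha0) hρ1
  obtain ⟨e, he⟩ : ∃ e : ℝ, e = Real.exp (-((1 - 3 * a) / m)) - Real.exp (-((1 - 2 * a) / m)) :=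
    ⟨_, rfl⟩
  have he0 : 0 < e := by
    rw [he, sub_pos]
    apply Real.exp_lt_exp.2
    apply neg_lt_neg
    exact (div_lt_div_iff_of_pos_right hm0).2 (by linarith)
  have he1 : e ≤ 1 := by
    have h1 : Real.exp (-((1 - 3 * a) / m)) ≤ 1 := by
      apply Real.exp_le_one_iff.2
      have : 0 ≤ (1 - 3 * a) / m := div_nonneg (by linarith) hm0.le
      linarith
    have h2 := Real.exp_pos (-((1 - 2 * a) / m))
    rw [he]
    linarith
  obtain ⟨K, hK⟩ : ∃ K : ℕ, K = H * H := ⟨_, rfl⟩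
  have hKH : (K : ℝ) / H = H := by
    rw [hK]; push_cast
    field_simp
  obtain ⟨C, hC⟩ : ∃ C : ℝ, C = m * (4 * K + 20) / a := ⟨_, rfl⟩
  have hC0 : 0 ≤ C := by rw [hC]; positivity
  have hρT : 0 < ρ ^ T := pow_pos hρ0 T
  obtain ⟨N1, hN1⟩ := ev_log C (ρ ^ T * e) (mul_pos hρT he0)
  obtain ⟨N2, hN2⟩ := ev_log C (a / (H : ℝ) ^ 2) (by positivity)
  obtain ⟨N3, hN3⟩ : ∃ N3 : ℕ, 2 * T / a ≤ (N3 : ℝ) := ⟨_, Nat.le_ceil _⟩
  obtain ⟨N4, hN4⟩ : ∃ N4 : ℕ, (T / m + T + 3) / (9 * a) ≤ (N4 : ℝ) := ⟨_, Nat.le_ceil _⟩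
  obtain ⟨N5, hN5⟩ : ∃ N5 : ℕ, 24 * (2 : ℝ) ^ (2 * K + 6) ≤ (N5 : ℝ) := ⟨_, Nat.le_ceil _⟩
  refine ⟨H, K, T, hH0, N1 + N2 + N3 + N4 + N5 + H + 1, fun Δ hΔ => ?_⟩
  have hΔ1 : 1 ≤ Δ := by omega
  have hx1 : (1 : ℝ) ≤ Δ := by exact_mod_cast hΔ1
  have hx0 : (0 : ℝ) < Δ := by linarith
  have hk1 := hN1 Δ (by omega)
  have hk2 := hN2 Δ (by omega)
  have hΔ3 : 2 * T / a ≤ (Δ : ℝ) := le_trans hN3 (by exact_mod_cast (by omega : N3 ≤ Δ))
  have hΔ4 : (T / m + T + 3) / (9 * a) ≤ (Δ : ℝ) :=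
    le_trans hN4 (by exact_mod_cast (by omega : N4 ≤ Δ))
  have hΔ5 : 24 * (2 : ℝ) ^ (2 * K + 6) ≤ (Δ : ℝ) :=
    le_trans hN5 (by exact_mod_cast (by omega : N5 ≤ Δ))
  have hKΔ : K ≤ H * Δ := by
    rw [hK]
    exact Nat.mul_le_mul_left _ (by omega)
  have hlog : 0 ≤ Real.log Δ := Real.log_nonneg hx1
  obtain ⟨k, hk⟩ : ∃ k : ℕ, k = ⌈C * Real.log Δ⌉₊ := ⟨_, rfl⟩
  have hkl : C * Real.log Δ ≤ k := by rw [hk]; exact Nat.le_ceil _
  have hku : (k : ℝ) ≤ C * Real.log Δ + 1 := by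
    rw [hk]
    exact (Nat.ceil_lt_add_one (mul_nonneg hC0 hlog)).le
  obtain ⟨D, hD⟩ : ∃ D : ℕ → ℕ, D = fun i => ⌈ρ ^ i * Δ⌉₊ := ⟨_, rfl⟩
  obtain ⟨J, hJ⟩ : ∃ J : ℕ → ℕ, J = fun i => ⌈(D i : ℝ) * Δ / m⌉₊ := ⟨_, rfl⟩
  have hDl : ∀ i, ρ ^ i * Δ ≤ D i := fun i => by rw [hD]; exact Nat.le_ceil _
  have hDu : ∀ i, (D i : ℝ) ≤ ρ ^ i * Δ + 1 := fun i => by
    rw [hD]
    exact (Nat.ceil_lt_add_one (by positivity)).le
  have hJl : ∀ i, (D i : ℝ) * Δ / m ≤ J i := fun i => by rw [hJ]; exact Nat.le_ceil _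
  have hJu : ∀ i, (J i : ℝ) ≤ (D i : ℝ) * Δ / m + 1 := fun i => by
    rw [hJ]
    exact (Nat.ceil_lt_add_one (by positivity)).le
  have hDpos : ∀ i, 0 < (D i : ℝ) := fun i => lt_of_lt_of_le (by positivity) (hDl i)
  have hρmono : ∀ i, i ≤ T → ρ ^ T ≤ ρ ^ i := fun i hi =>
    pow_le_pow_of_le_one hρ0.le hρ1.le hi
  refine ⟨hΔ1, hKΔ, D, J, k, Real.exp (-(a / m)), 1 / (Δ : ℝ) ^ 3, ?_, (Real.exp_pos _).le,
    by positivity, ?_, ?_, ?_⟩
  · rw [hD]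
    simp
  · intro i hi
    refine ⟨by exact_mod_cast hDpos i, ?_, ?_⟩
    · have h1 : (k : ℝ) ≤ D (i + 1) := by
        have h2 : ρ ^ T * Δ ≤ ρ ^ (i + 1) * Δ :=
          mul_le_mul_of_nonneg_right (hρmono _ hi) hx0.le
        have h3 : ρ ^ T * e * Δ ≤ ρ ^ T * Δ := by
          have : ρ ^ T * e ≤ ρ ^ T * 1 := mul_le_mul_of_nonneg_left he1 hρT.le
          nlinarith
        have h4 := hDl (i + 1)
        linarith
      exact_mod_cast h1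
    · have hπ : 1 - a ≤ 1 - 1 / (H : ℝ) - Real.exp (-((K : ℝ) / H)) := by
        rw [hKH]
        linarith
      have hsmall : (i : ℝ) * (1 / (Δ : ℝ) ^ 3) * Δ + k * ((K : ℝ) / H) ^ 2 / (2 * Δ) ≤ a := by
        have h1 : (i : ℝ) * (1 / (Δ : ℝ) ^ 3) * Δ ≤ a / 2 := by
          have h2 : (i : ℝ) * (1 / (Δ : ℝ) ^ 3) * Δ = i / (Δ : ℝ) ^ 2 := by
            field_simp
          rw [h2, div_le_iff₀ (by positivity)]
          have h3 : (i : ℝ) ≤ T := by exact_mod_cast hi.le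
          have h4 : (T : ℝ) ≤ a / 2 * Δ := by
            rw [div_le_iff₀ ha0] at hΔ3
            linarith
          have h5 : a / 2 * (Δ : ℝ) ≤ a / 2 * (Δ : ℝ) ^ 2 := by
            apply mul_le_mul_of_nonneg_left _ (by positivity)
            nlinarith
          linarith
        have h6 : k * ((K : ℝ) / H) ^ 2 / (2 * Δ) ≤ a / 2 := by
          rw [hKH, div_le_iff₀ (by positivity)]
          have h7 : (k : ℝ) ≤ a / (H : ℝ) ^ 2 * Δ := by linarith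
          have h8 : (k : ℝ) * (H : ℝ) ^ 2 ≤ a / (H : ℝ) ^ 2 * Δ * (H : ℝ) ^ 2 :=
            mul_le_mul_of_nonneg_right h7 (by positivity)
          have h9 : a / (H : ℝ) ^ 2 * Δ * (H : ℝ) ^ 2 = a * Δ := by
            field_simp
          rw [h9] at h8
          linarith
        linarith
      have hkk : (k : ℝ) + 1 ≤ (ρ ^ i * (Real.exp (-((1 - 3 * a) / m)) -
          Real.exp (-((1 - 2 * a) / m)))) * Δ := by
        rw [← he]
        have h1 : ρ ^ T * e * Δ ≤ ρ ^ i * e * Δ :=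
          mul_le_mul_of_nonneg_right
            (mul_le_mul_of_nonneg_right (hρmono i hi.le) he0.le) hx0.le
        linarith
      have hD' : ρ ^ i * Real.exp (-((1 - 4 * a) / m)) * Δ ≤ D (i + 1) := by
        have h1 := hDl (i + 1)
        rw [← hρ]
        rwa [pow_succ] at h1
      have h := step (x := (Δ : ℝ)) (m := m) (J := (J i : ℝ)) (D := (D i : ℝ))
        (D' := (D (i + 1) : ℝ)) (a := a) (π := 1 - 1 / (H : ℝ) - Real.exp (-((K : ℝ) / H)))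
        (s := (i : ℝ) * (1 / (Δ : ℝ) ^ 3)) (κ := (K : ℝ) / H) (k := (k : ℝ)) (r := ρ ^ i)
        hx0 hm0 (hDpos i) (hJl i) (by linarith) hπ hsmall (hDu i) hD' hkk (Nat.cast_nonneg _)
        ha0.le
      have hdd : (K : ℝ) / (H * Δ) = (K : ℝ) / H / Δ := by rw [div_div]
      rw [hdd]
      exact h
  · apply lll_cond K Δ _ hx1 hΔ5 (pow_nonneg (Real.exp_pos _).le _)
    rw [← Real.exp_nat_mul]
    have h1 : (Δ : ℝ) ^ (4 * K + 20) = Real.exp (((4 * K + 20 : ℕ) : ℝ) * Real.log Δ) := by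
      rw [Real.exp_nat_mul, Real.exp_log hx0]
    rw [h1, ← Real.exp_add]
    apply Real.exp_le_one_iff.2
    have h2 : a / m * (C * Real.log Δ) ≤ a / m * k := mul_le_mul_of_nonneg_left hkl (by positivity)
    have h3 : a / m * (C * Real.log Δ) = (4 * K + 20) * Real.log Δ := by
      rw [hC]
      field_simp
    push_cast
    linarith
  · have h1 : ((∑ i ∈ range T, J i : ℕ) : ℝ) ≤
        ∑ i ∈ range T, (ρ ^ i * ((Δ : ℝ) ^ 2 / m) + (Δ / m + 1)) := by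
      rw [Nat.cast_sum]
      apply Finset.sum_le_sum
      intro i _
      have h2 := hJu i
      have h3 := hDu i
      have h4 : (D i : ℝ) * Δ / m ≤ (ρ ^ i * Δ + 1) * Δ / m :=
        div_le_div_of_nonneg_right (mul_le_mul_of_nonneg_right h3 hx0.le) hm0.le
      have h5 : (ρ ^ i * (Δ : ℝ) + 1) * Δ / m = ρ ^ i * ((Δ : ℝ) ^ 2 / m) + Δ / m := by
        ring
      linarith
    rw [Finset.sum_add_distrib, ← Finset.sum_mul, Finset.sum_const, Finset.card_range,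
      nsmul_eq_mul] at h1
    have h6 := geom_le hρ0.le hρ1 T
    have h7 : (∑ i ∈ range T, ρ ^ i) * ((Δ : ℝ) ^ 2 / m) ≤ (1 + 10 * a) * (Δ : ℝ) ^ 2 := by
      have h8 := geo_bound ha0 ha hm
      rw [← hρ] at h8
      calc (∑ i ∈ range T, ρ ^ i) * ((Δ : ℝ) ^ 2 / m) ≤ 1 / (1 - ρ) * ((Δ : ℝ) ^ 2 / m) :=
            mul_le_mul_of_nonneg_right h6 (by positivity)
        _ = 1 / (1 - ρ) / m * (Δ : ℝ) ^ 2 := by ring
        _ ≤ (1 + 10 * a) * (Δ : ℝ) ^ 2 := mul_le_mul_of_nonneg_right h8 (by positivity)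
    have h9 := hDu T
    have h10 : 2 * (Δ : ℝ) * D T ≤ a * (Δ : ℝ) ^ 2 + 2 * Δ := by
      have h11 : 2 * (Δ : ℝ) * D T ≤ 2 * Δ * (ρ ^ T * Δ + 1) :=
        mul_le_mul_of_nonneg_left h9 (by positivity)
      have h12 : ρ ^ T * (Δ : ℝ) ^ 2 ≤ a / 2 * (Δ : ℝ) ^ 2 :=
        mul_le_mul_of_nonneg_right hT.le (by positivity)
      nlinarith
    have h13 : T / m + T + 3 ≤ 9 * a * Δ := by
      rw [div_le_iff₀ (by positivity)] at hΔ4
      linarith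
    have h14 : (T / m + T + 3) * Δ ≤ 9 * a * (Δ : ℝ) ^ 2 := by
      have := mul_le_mul_of_nonneg_right h13 hx0.le
      nlinarith
    have h15 : (T : ℝ) * (Δ / m + 1) = T / m * Δ + T := by ring
    have h16 : (T : ℝ) ≤ T * Δ := by
      have : (0 : ℝ) ≤ T := Nat.cast_nonneg _
      nlinarith
    have h17 : 20 * a * (Δ : ℝ) ^ 2 ≤ ε * (Δ : ℝ) ^ 2 :=
      mul_le_mul_of_nonneg_right haε (by positivity)
    nlinarith

end Pool.Agent.SEC
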