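import Pool.Agent.Helper66.SEC.Phase
import Pool.Agent.Helper66.SEC.Numbers

set_option autoImplicit false

namespace Pool.Agent.SEC

open Finset
open scoped Classical

namespace Iterate

/-- greedy colouring -/
theorem greedy {α : Type} (R : α → α → Prop) (hR : ∀ a b, R a b → R b a) (m : ℕ) (S : Finset α)
    (hS : ∀ e ∈ S, (S.filter (fun e' => R e e')).card ≤ m) :
    ∃ c : α → ℕ, (∀ e, c e < m + 1) ∧ ∀ e ∈ S, ∀ e' ∈ S, e ≠ e' → R e e' → c e ≠ c e' := by
  induction S using Finset.induction_on with
  | empty => exact ⟨fun _ => 0, fun _ => Nat.succ_pos m, by simp⟩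
  | insert a S ha ih =>
    have hS' : ∀ e ∈ S, (S.filter (fun e' => R e e')).card ≤ m := fun e he =>
      (card_le_card (filter_subset_filter _ (subset_insert a S))).trans
        (hS e (mem_insert_of_mem he))
    obtain ⟨c, hc1, hc2⟩ := ih hS'
    have h1 : ((S.filter (fun e' => R a e')).image c).card < (range (m + 1)).card := by
      rw [card_range]
      have := hS a (mem_insert_self a S)
      have h2 := card_le_card (filter_subset_filter (fun e' => R a e') (subset_insert a S))
      have h3 := card_image_le (s := S.filter (fun e' => R a e')) (f := c)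
      omega
    obtain ⟨x, hx, hx'⟩ := exists_mem_notMem_of_card_lt_card h1
    refine ⟨fun e => if e = a then x else c e, ?_, ?_⟩
    · intro e
      by_cases h : e = a
      · simp only [h, if_true]; exact mem_range.mp hx
      · simp only [h, if_false]; exact hc1 e
    · intro e he e' he' hne hee
      rw [mem_insert] at he he'
      have key : ∀ b ∈ S, R a b → x ≠ c b := by
        intro b hb hab hxb
        exact hx' (mem_image.mpr ⟨b, mem_filter.mpr ⟨hb, hab⟩, hxb.symm⟩)
      rcases he with rfl | he
      · rcases he' with rfl | he'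
        · exact absurd rfl hne
        · have : e' ≠ e := fun h => hne h.symm
          simp only [if_true, this, if_false]
          exact key e' he' hee
      · rcases he' with rfl | he'
        · simp only [hne, if_false, if_true]
          exact (key e he (hR _ _ hee)).symm
        · have h1 : e ≠ a := fun h => ha (h ▸ he)
          have h2 : e' ≠ a := fun h => ha (h ▸ he')
          simp only [h1, h2, if_false]
          exact hc2 e he e' he' hne hee

theorem pr_false {Ω : Type} [Fintype Ω] {p : Ω → Prop} (h : ∀ ω, ¬ p ω) : pr p = 0 := by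
  unfold pr
  rw [filter_false_of_mem (fun ω _ => h ω)]
  simp

variable {X Y : Type} [Fintype X] [Fintype Y]

theorem good_zero (r : X → Y → Prop) (K N Δ : ℕ) (hX : ∀ x, (nX r x).card ≤ Δ)
    (hY : ∀ y, (nY r y).card ≤ Δ) : Good r K N Δ 0 (edges r) := by
  refine ⟨subset_rfl, ?_, ?_, ?_⟩
  · intro x
    rw [pr_false]
    intro l
    rw [not_lt]
    refine le_trans ?_ (hX x)
    unfold load act
    -- map e ↦ e.2 injective
    refine card_le_card_of_injOn (fun e => e.2) ?_ ?_
    · intro e he
      simp only [coe_filter, mem_filter, Set.mem_ofPred_eq] at he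
      simp only [nX, coe_filter, mem_univ, true_and, Set.mem_ofPred_eq]
      exact he.2
    · intro e he e' he' hee
      simp only [coe_filter, mem_filter, Set.mem_ofPred_eq] at he he'
      have h1 := he.1.2
      have h2 := he'.1.2
      dsimp only at hee
      by_contra hne
      have hx : e.1 ≠ e'.1 := fun h => hne (Prod.ext h hee)
      have h3 := h1.2.2 e'.1 (by rw [hee]; exact h2.1) hx.symm
      have h4 := h2.2.2 e.1 (by rw [← hee]; exact h1.1) hx
      omega
  · intro x
    refine le_trans ?_ (hX x)
    refine card_le_card_of_injOn (fun e => e.2) ?_ ?_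
    · intro e he
      simp only [edges, coe_filter, mem_filter, mem_univ, true_and, Set.mem_ofPred_eq] at he
      simp only [nX, coe_filter, mem_univ, true_and, Set.mem_ofPred_eq]
      rw [← he.2]; exact he.1
    · intro e he e' he' hee
      simp only [edges, coe_filter, mem_filter, mem_univ, true_and, Set.mem_ofPred_eq] at he he'
      exact Prod.ext (he.2.trans he'.2.symm) hee
  · intro y
    refine le_trans ?_ (hY y)
    refine card_le_card_of_injOn (fun e => e.1) ?_ ?_
    · intro e he
      simp only [edges, coe_filter, mem_filter, mem_univ, true_and, Set.mem_ofPred_eq] at he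
      simp only [nY, coe_filter, mem_univ, true_and, Set.mem_ofPred_eq]
      rw [← he.2]; exact he.1
    · intro e he e' he' hee
      simp only [edges, coe_filter, mem_filter, mem_univ, true_and, Set.mem_ofPred_eq] at he he'
      exact Prod.ext hee (he.2.trans he'.2.symm)

theorem card_conf (r : X → Y → Prop) (Δ D : ℕ) (hX : ∀ x, (nX r x).card ≤ Δ)
    (hY : ∀ y, (nY r y).card ≤ Δ) (U : Finset (X × Y))
    (h1 : ∀ x, (U.filter (fun e => e.1 = x)).card ≤ D)
    (h2 : ∀ y, (U.filter (fun e => e.2 = y)).card ≤ D) (e : X × Y) :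
    (U.filter (fun e' => r e.1 e'.2 ∨ r e'.1 e.2)).card ≤ 2 * Δ * D := by
  have ha : (U.filter (fun e' => r e.1 e'.2)).card ≤ Δ * D := by
    have : U.filter (fun e' => r e.1 e'.2) ⊆
        (nX r e.1).biUnion (fun y => U.filter (fun e' => e'.2 = y)) := by
      intro e' he'
      rw [mem_filter] at he'
      rw [mem_biUnion]
      exact ⟨e'.2, by simp [nX, he'.2], by simp [he'.1]⟩
    refine (card_le_card this).trans (card_biUnion_le.trans ?_)
    refine (sum_le_card_nsmul _ _ D (fun y _ => h2 y)).trans ?_
    rw [smul_eq_mul]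
    exact Nat.mul_le_mul_right _ (hX e.1)
  have hb : (U.filter (fun e' => r e'.1 e.2)).card ≤ Δ * D := by
    have : U.filter (fun e' => r e'.1 e.2) ⊆
        (nY r e.2).biUnion (fun x => U.filter (fun e' => e'.1 = x)) := by
      intro e' he'
      rw [mem_filter] at he'
      rw [mem_biUnion]
      exact ⟨e'.1, by simp [nY, he'.2], by simp [he'.1]⟩
    refine (card_le_card this).trans (card_biUnion_le.trans ?_)
    refine (sum_le_card_nsmul _ _ D (fun y _ => h1 y)).trans ?_
    rw [smul_eq_mul]
    exact Nat.mul_le_mul_right _ (hY e.2)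
  rw [filter_or]
  refine (card_union_le _ _).trans ?_
  nlinarith

end Iterate

open Iterate

theorem main_rel' (ε : ℝ) (hε : 0 < ε) : ∃ Δ₀ : ℕ, ∀ (X Y : Type) [Fintype X] [Fintype Y]
    (r : X → Y → Prop) (Δ : ℕ), Δ₀ ≤ Δ → (∀ x, (nX r x).card ≤ Δ) → (∀ y, (nY r y).card ≤ Δ) →
    ∃ c : X × Y → ℕ, (∀ e, r e.1 e.2 → ((c e : ℝ) + 1) ≤ (1 + ε) * (Δ : ℝ) ^ 2) ∧
      ∀ e e', r e.1 e.2 → r e'.1 e'.2 → e ≠ e' → c e = c e' → ¬ r e.1 e'.2 := by
  obtain ⟨H, K, T, hH, Δ₀, hnum⟩ := numbers ε hε
  refine ⟨Δ₀, fun X Y _ _ r Δ hΔ hX hY => ?_⟩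
  obtain ⟨hΔ0, hK, D, J, k, β, δ', hD0, hβ0, hδ', hph, hlll, hsum⟩ := hnum Δ hΔ
  have iter : ∀ i, i ≤ T → ∃ U : Finset (X × Y), Good r K (H * Δ) (D i) (i * δ') U ∧
      ∃ c : X × Y → ℕ, (∀ e ∈ edges r, e ∉ U → c e < ∑ j ∈ range i, J j) ∧
        ∀ e ∈ edges r, ∀ e' ∈ edges r, e ∉ U → e' ∉ U → e ≠ e' → c e = c e' → ¬ r e.1 e'.2 := by
    intro i
    induction i with
    | zero =>
      intro _
      refine ⟨edges r, ?_, fun _ => 0, fun e he h => absurd he h, fun e he e' he' h => absurd he h⟩
      rw [Nat.cast_zero, zero_mul, hD0]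
      exact good_zero r K (H * Δ) Δ hX hY
    | succ i ih =>
      intro hi
      obtain ⟨U, hU, c, hc1, hc2⟩ := ih (by omega)
      obtain ⟨hDi, hk, hineq⟩ := hph i (by omega)
      obtain ⟨M, hM, hgood⟩ := phase r H K Δ (D i) (D (i + 1)) (J i) k (i * δ') δ' β _ _ hX hY hH hΔ0
        hK hDi hδ' hk U hU le_rfl rfl hineq hβ0 hlll
      have hcast : ((i : ℝ) * δ' + δ') = ((i + 1 : ℕ) : ℝ) * δ' := by push_cast; ring
      rw [hcast] at hgood
      have hsub : ∀ e ∈ U, e ∉ U.filter (fun e => ∀ j, e ∉ M j) → ∃ j, e ∈ M j := by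
        intro e he h
        by_contra hcon
        push Not at hcon
        exact h (mem_filter.mpr ⟨he, hcon⟩)
      refine ⟨_, hgood, fun e => if h : ∃ j, e ∈ M j ∧ e ∈ U then
        (∑ j ∈ range i, J j) + (h.choose : ℕ) else c e, ?_, ?_⟩
      · intro e he hne
        dsimp only
        rw [sum_range_succ]
        by_cases h : ∃ j, e ∈ M j ∧ e ∈ U
        · rw [dif_pos h]
          have := h.choose.2
          omega
        · rw [dif_neg h]
          have heU : e ∉ U := by
            intro heU
            obtain ⟨j, hj⟩ := hsub e heU hne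
            exact h ⟨j, hj, heU⟩
          have := hc1 e he heU
          omega
      · intro e he e' he' hne hne' hee hcc
        dsimp only at hcc
        by_cases h : ∃ j, e ∈ M j ∧ e ∈ U
        · by_cases h' : ∃ j, e' ∈ M j ∧ e' ∈ U
          · rw [dif_pos h, dif_pos h'] at hcc
            have h1 : h.choose = h'.choose := Fin.ext (by omega)
            have h2 := h.choose_spec.1
            have h3 := h'.choose_spec.1
            rw [← h1] at h3
            exact hM _ e h2 e' h3 hee
          · rw [dif_pos h, dif_neg h'] at hcc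
            have heU : e' ∉ U := by
              intro heU
              obtain ⟨j, hj⟩ := hsub e' heU hne'
              exact h' ⟨j, hj, heU⟩
            have := hc1 e' he' heU
            omega
        · have heU : e ∉ U := by
            intro heU
            obtain ⟨j, hj⟩ := hsub e heU hne
            exact h ⟨j, hj, heU⟩
          by_cases h' : ∃ j, e' ∈ M j ∧ e' ∈ U
          · rw [dif_neg h, dif_pos h'] at hcc
            have := hc1 e he heU
            omega
          · rw [dif_neg h, dif_neg h'] at hcc
            have heU' : e' ∉ U := by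
              intro heU
              obtain ⟨j, hj⟩ := hsub e' heU hne'
              exact h' ⟨j, hj, heU⟩
            exact hc2 e he e' he' heU heU' hee hcc
  obtain ⟨U, ⟨hUe, _, hU1, hU2⟩, c, hc1, hc2⟩ := iter T le_rfl
  obtain ⟨g, hg1, hg2⟩ := greedy (fun e e' : X × Y => r e.1 e'.2 ∨ r e'.1 e.2)
    (fun a b h => h.symm) (2 * Δ * D T) U
    (fun e _ => by convert card_conf r Δ (D T) hX hY U hU1 hU2 e)
  refine ⟨fun e => if e ∈ U then (∑ j ∈ range T, J j) + g e else c e, ?_, ?_⟩
  · intro e he
    refine le_trans ?_ hsum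
    have he' : e ∈ edges r := by simp [edges, he]
    dsimp only
    by_cases h : e ∈ U
    · rw [if_pos h]
      have := hg1 e
      have h2 : ((g e : ℕ) : ℝ) + 1 ≤ ((2 * Δ * D T + 1 : ℕ) : ℝ) := by
        exact_mod_cast this
      push_cast at h2 ⊢
      linarith
    · rw [if_neg h]
      have := hc1 e he' h
      have h2 : ((c e : ℕ) : ℝ) + 1 ≤ ((∑ j ∈ range T, J j : ℕ) : ℝ) := by
        exact_mod_cast this
      have h3 : (0 : ℝ) ≤ 2 * Δ * D T := by positivity
      linarith
  · intro e e' he he' hee hcc
    have hee' : e ∈ edges r := by simp [edges, he]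
    have hee'' : e' ∈ edges r := by simp [edges, he']
    by_cases h : e ∈ U
    · by_cases h' : e' ∈ U
      · simp only [if_pos h, if_pos h'] at hcc
        intro hr
        exact hg2 e h e' h' hee (Or.inl hr) (by omega)
      · simp only [if_pos h, if_neg h'] at hcc
        have := hc1 e' hee'' h'
        omega
    · by_cases h' : e' ∈ U
      · simp only [if_neg h, if_pos h'] at hcc
        have := hc1 e hee' h
        omega
      · simp only [if_neg h, if_neg h'] at hcc
        exact hc2 e hee' e' hee'' h h' hee hcc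

end Pool.Agent.SEC
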