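import Pool.Agent.Helper66.SEC.Defs

/-!
S6: locality of the random matching, and balls in the square of the graph.
-/

set_option autoImplicit false

namespace Pool.Agent.SEC

open Finset
open scoped Classical

variable {X Y : Type} [Fintype X] [Fintype Y]

namespace Local

theorem mem_ball_succ (r : X → Y → Prop) (n : ℕ) (x z : X) :
    z ∈ ball r (n + 1) x ↔ z ∈ ball r n x ∨ ∃ z' ∈ ball r n x, ∃ y, r z' y ∧ r z y := by
  simp [ball]

theorem mem_ball_zero (r : X → Y → Prop) (x z : X) : z ∈ ball r 0 x ↔ z = x := by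
  simp [ball]

theorem ball_mono (r : X → Y → Prop) {m n : ℕ} (h : m ≤ n) (x : X) : ball r m x ⊆ ball r n x := by
  induction n, h using Nat.le_induction with
  | base => exact subset_rfl
  | succ n hn ih => exact fun z hz => (mem_ball_succ r n x z).2 (Or.inl (ih hz))

theorem mem_ball_self (r : X → Y → Prop) (n : ℕ) (x : X) : x ∈ ball r n x :=
  ball_mono r (Nat.zero_le n) x ((mem_ball_zero r x x).2 rfl)

theorem mem_ball_one (r : X → Y → Prop) {x z : X} {y : Y} (h : r x y) (h' : r z y) :
    z ∈ ball r 1 x :=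
  (mem_ball_succ r 0 x z).2 (Or.inr ⟨x, (mem_ball_zero r x x).2 rfl, y, h, h'⟩)

end Local

theorem ball_trans (r : X → Y → Prop) (m n : ℕ) {x z w : X} (h : z ∈ ball r m x)
    (h' : w ∈ ball r n z) : w ∈ ball r (m + n) x := by
  induction n generalizing w with
  | zero =>
    rw [Local.mem_ball_zero] at h'
    rw [h']
    exact h
  | succ n ih =>
    rw [Local.mem_ball_succ] at h'
    rw [← Nat.add_assoc, Local.mem_ball_succ]
    rcases h' with h' | ⟨z', hz', y, h1, h2⟩
    · exact Or.inl (ih h')
    · exact Or.inr ⟨z', ih hz', y, h1, h2⟩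

theorem ball_symm (r : X → Y → Prop) (n : ℕ) {x z : X} (h : z ∈ ball r n x) :
    x ∈ ball r n z := by
  induction n generalizing z with
  | zero =>
    rw [Local.mem_ball_zero] at h ⊢
    exact h.symm
  | succ n ih =>
    rw [Local.mem_ball_succ] at h
    rcases h with h | ⟨z', hz', y, h1, h2⟩
    · exact (Local.mem_ball_succ r n z x).2 (Or.inl (ih h))
    · have h3 := ball_trans r 1 n (Local.mem_ball_one r h2 h1) (ih hz')
      rwa [Nat.add_comm] at h3

theorem ball_card (r : X → Y → Prop) (Δ : ℕ) (hX : ∀ x, (nX r x).card ≤ Δ)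
    (hY : ∀ y, (nY r y).card ≤ Δ) (n : ℕ) (x : X) : (ball r n x).card ≤ (Δ ^ 2 + 1) ^ n := by
  induction n with
  | zero => simp [ball]
  | succ n ih =>
    have hsub : ball r (n + 1) x ⊆
        (ball r n x).biUnion (fun z' => {z'} ∪ (nX r z').biUnion (fun y => nY r y)) := by
      intro z hz
      rw [Local.mem_ball_succ] at hz
      rw [mem_biUnion]
      rcases hz with hz | ⟨z', hz', y, h1, h2⟩
      · exact ⟨z, hz, mem_union_left _ (mem_singleton_self z)⟩
      · refine ⟨z', hz', mem_union_right _ ?_⟩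
        rw [mem_biUnion]
        exact ⟨y, by simp [nX, h1], by simp [nY, h2]⟩
    refine (card_le_card hsub).trans ((card_biUnion_le_card_mul _ _ (Δ ^ 2 + 1) ?_).trans ?_)
    · intro z' _
      refine (card_union_le _ _).trans ?_
      have h1 : ((nX r z').biUnion (fun y => nY r y)).card ≤ (nX r z').card * Δ :=
        card_biUnion_le_card_mul _ _ _ (fun y _ => hY y)
      have h2 : (nX r z').card * Δ ≤ Δ * Δ := Nat.mul_le_mul_right _ (hX z')
      rw [card_singleton]
      have h3 : Δ ^ 2 = Δ * Δ := by ring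
      omega
    · rw [pow_succ]
      exact Nat.mul_le_mul_right _ ih

namespace Local

theorem isFirst_congr (r : X → Y → Prop) (K : ℕ) {l l' : X → ℕ} {x : X} {y : Y}
    (h : ∀ z, r z y → l z = l' z) : IsFirst r K l x y ↔ IsFirst r K l' x y := by
  unfold IsFirst
  constructor
  · rintro ⟨h1, h2, h3⟩
    rw [h x h1] at h2 h3
    refine ⟨h1, h2, fun x' hx' hne => ?_⟩
    rw [← h x' hx']
    exact h3 x' hx' hne
  · rintro ⟨h1, h2, h3⟩
    rw [← h x h1] at h2 h3
    refine ⟨h1, h2, fun x' hx' hne => ?_⟩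
    rw [h x' hx']
    exact h3 x' hx' hne

theorem act_congr (r : X → Y → Prop) (K : ℕ) {l l' : X → ℕ} (U : Finset (X × Y))
    {x : X} (h : ∀ z ∈ ball r 1 x, l z = l' z) {e : X × Y} (he : r x e.2) :
    e ∈ act r K l U ↔ e ∈ act r K l' U := by
  unfold act
  rw [mem_filter, mem_filter]
  rw [isFirst_congr r K (fun z hz => h z (mem_ball_one r he hz))]

theorem load_congr (r : X → Y → Prop) (K : ℕ) {l l' : X → ℕ} (U : Finset (X × Y))
    {x : X} (h : ∀ z ∈ ball r 1 x, l z = l' z) : load r K l U x = load r K l' U x := by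
  unfold load
  congr 1
  ext e
  rw [mem_filter, mem_filter]
  constructor
  · rintro ⟨h1, h2⟩
    exact ⟨(act_congr r K U h h2).1 h1, h2⟩
  · rintro ⟨h1, h2⟩
    exact ⟨(act_congr r K U h h2).2 h1, h2⟩

theorem used_congr (r : X → Y → Prop) (K : ℕ) {l l' : X → ℕ} (U : Finset (X × Y))
    (hU : U ⊆ edges r) (D : ℕ) {e : X × Y} (h : ∀ z ∈ ball r 1 e.1, l z = l' z) :
    e ∈ used r K l U D ↔ e ∈ used r K l' U D := by
  by_cases heU : e ∈ U
  · have he : r e.1 e.2 := by
      have := hU heU
      rw [edges, mem_filter] at this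
      exact this.2
    unfold used
    rw [mem_filter, mem_filter, act_congr r K U h he, load_congr r K U h]
  · have h1 : ∀ l'' : X → ℕ, e ∉ used r K l'' U D := by
      intro l'' hmem
      rw [used, mem_filter, act, mem_filter] at hmem
      exact heU hmem.1.1
    exact iff_of_false (h1 l) (h1 l')

theorem used_edge {r : X → Y → Prop} {K : ℕ} {l : X → ℕ} {U : Finset (X × Y)}
    (hU : U ⊆ edges r) {D : ℕ} {e : X × Y} (he : e ∈ used r K l U D) : r e.1 e.2 := by
  rw [used, mem_filter, act, mem_filter] at he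
  have := hU he.1.1
  rw [edges, mem_filter] at this
  exact this.2

theorem stage_congr (r : X → Y → Prop) (K : ℕ) {l l' : X → ℕ} (idx : Y → ℕ) (U : Finset (X × Y))
    (hU : U ⊆ edges r) {D : ℕ} {π π' : X → Equiv.Perm (Fin D)} (k : ℕ) {e : X × Y}
    (h : ∀ z ∈ ball r (k + 1) e.1, l z = l' z ∧ π z = π' z) :
    stage r l idx (used r K l U D) π k e = stage r l' idx (used r K l' U D) π' k e := by
  induction k generalizing e with
  | zero => rfl
  | succ k ih =>
    have h1 : ∀ z ∈ ball r 1 e.1, l z = l' z := fun z hz =>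
      (h z (ball_mono r (by omega) e.1 hz)).1
    have hself := h e.1 (mem_ball_self r _ e.1)
    have hold : stage r l idx (used r K l U D) π k e =
        stage r l' idx (used r K l' U D) π' k e :=
      ih (fun z hz => h z (ball_mono r (by omega) e.1 hz))
    have hcond : (e ∈ used r K l U D ∧ l e.1 = k) ↔ (e ∈ used r K l' U D ∧ l' e.1 = k) := by
      rw [used_congr r K U hU D h1, hself.1]
    have hB : (univ.filter (fun c => ∃ e' ∈ used r K l U D, r e.1 e'.2 ∧
          stage r l idx (used r K l U D) π k e' = some c)) =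
        (univ.filter (fun c => ∃ e' ∈ used r K l' U D, r e.1 e'.2 ∧
          stage r l' idx (used r K l' U D) π' k e' = some c)) := by
      have key : ∀ e' : X × Y, r e.1 e'.2 → r e'.1 e'.2 →
          (e' ∈ used r K l U D ↔ e' ∈ used r K l' U D) ∧
          stage r l idx (used r K l U D) π k e' = stage r l' idx (used r K l' U D) π' k e' := by
        intro e' h2 h3
        have h4 : e'.1 ∈ ball r 1 e.1 := mem_ball_one r h2 h3
        have h5 : ∀ z ∈ ball r (k + 1) e'.1, l z = l' z ∧ π z = π' z := by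
          intro z hz
          apply h z
          have h6 := ball_trans r 1 (k + 1) h4 hz
          rwa [Nat.add_comm 1 (k + 1)] at h6
        refine ⟨used_congr r K U hU D (fun z hz => ?_), ih h5⟩
        exact (h5 z (ball_mono r (by omega) e'.1 hz)).1
      ext c
      rw [mem_filter, mem_filter]
      constructor
      · rintro ⟨_, e', h2, h3, h4⟩
        obtain ⟨k1, k2⟩ := key e' h3 (used_edge hU h2)
        exact ⟨mem_univ _, e', k1.1 h2, h3, k2 ▸ h4⟩
      · rintro ⟨_, e', h2, h3, h4⟩
        obtain ⟨k1, k2⟩ := key e' h3 (used_edge hU h2)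
        exact ⟨mem_univ _, e', k1.2 h2, h3, k2 ▸ h4⟩
    have hrank : rank idx (used r K l U D) e = rank idx (used r K l' U D) e := by
      unfold rank
      congr 1
      ext e'
      rw [mem_filter, mem_filter]
      constructor
      · rintro ⟨h2, h3, h4⟩
        refine ⟨(used_congr r K U hU D ?_).1 h2, h3, h4⟩
        rw [h3]
        exact h1
      · rintro ⟨h2, h3, h4⟩
        refine ⟨(used_congr r K U hU D ?_).2 h2, h3, h4⟩
        rw [h3]
        exact h1
    show (if e ∈ used r K l U D ∧ l e.1 = k then _ else _) =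
      (if e ∈ used r K l' U D ∧ l' e.1 = k then _ else _)
    by_cases hc : e ∈ used r K l U D ∧ l e.1 = k
    · rw [if_pos hc, if_pos (hcond.1 hc), hB, hrank, hself.2]
    · rw [if_neg hc, if_neg (fun h' => hc (hcond.2 h'))]
      exact hold

end Local

theorem cls_congr (r : X → Y → Prop) (K N : ℕ) (idx : Y → ℕ)
    (U : Finset (X × Y)) (hU : U ⊆ edges r) {D : ℕ} (c₀ : Fin D)
    {ω ω' : X → Fin N × Equiv.Perm (Fin D)} {e : X × Y}
    (h : ∀ z ∈ ball r (K + 2) e.1, ω z = ω' z) :
    e ∈ cls r K idx U c₀ ω ↔ e ∈ cls r K idx U c₀ ω' := by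
  have h1 : ∀ z ∈ ball r (K + 1) e.1, lev ω z = lev ω' z ∧ per ω z = per ω' z := by
    intro z hz
    have h2 := h z (Local.ball_mono r (by omega) e.1 hz)
    exact ⟨by rw [lev, lev, h2], by rw [per, per, h2]⟩
  have h2 : e ∈ used r K (lev ω) U D ↔ e ∈ used r K (lev ω') U D :=
    Local.used_congr r K U hU D (fun z hz => (h1 z (Local.ball_mono r (by omega) e.1 hz)).1)
  unfold cls
  rw [mem_filter, mem_filter, h2, Local.stage_congr r K idx U hU K h1]

end Pool.Agent.SEC
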