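import Pool.Agent.Helper66.SEC.Defs

/-!
# S3: symmetry of the colours
-/

set_option autoImplicit false

namespace Pool.Agent.SEC

open Finset
open scoped Classical

variable {X Y : Type} [Fintype X] [Fintype Y]

namespace Symm

theorem pr_eq {Ω : Type} [Fintype Ω] (p : Ω → Prop) [DecidablePred p] :
    pr p = ((univ.filter p).card : ℝ) / Fintype.card Ω := by
  have h : @Finset.filter Ω p (fun a => Classical.propDecidable (p a)) univ = univ.filter p := by
    ext a
    simp only [Finset.mem_filter]
  unfold pr
  rw [h]

theorem avail_mul {D : ℕ} (τ π : Equiv.Perm (Fin D)) (B B' : Finset (Fin D))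
    (hB : ∀ c, τ c ∈ B' ↔ c ∈ B) : avail (τ * π) B' = (avail π B).map τ := by
  unfold avail
  have h1 : (List.finRange D).map (τ * π : Equiv.Perm (Fin D)) =
      ((List.finRange D).map π).map τ := by
    rw [List.map_map]
    rfl
  rw [h1, List.filter_map]
  congr 1
  apply List.filter_congr
  intro c _
  simp only [Function.comp_apply, decide_eq_decide]
  rw [hB c]

theorem stage_mul (r : X → Y → Prop) (l : X → ℕ) (idx : Y → ℕ) (W : Finset (X × Y)) {D : ℕ}
    (τ : Equiv.Perm (Fin D)) (π : X → Equiv.Perm (Fin D)) : ∀ (k : ℕ) (e : X × Y),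
      stage r l idx W (fun x => τ * π x) k e = (stage r l idx W π k e).map τ := by
  intro k
  induction k with
  | zero =>
    intro e
    rfl
  | succ k ih =>
    intro e
    show (if e ∈ W ∧ l e.1 = k then
        (avail (τ * π e.1) (univ.filter (fun c => ∃ e' ∈ W, r e.1 e'.2 ∧
          stage r l idx W (fun x => τ * π x) k e' = some c)))[rank idx W e]?
      else stage r l idx W (fun x => τ * π x) k e) =
      (if e ∈ W ∧ l e.1 = k then
        (avail (π e.1) (univ.filter (fun c => ∃ e' ∈ W, r e.1 e'.2 ∧
          stage r l idx W π k e' = some c)))[rank idx W e]?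
      else stage r l idx W π k e).map τ
    by_cases he : e ∈ W ∧ l e.1 = k
    · rw [if_pos he, if_pos he]
      rw [avail_mul τ (π e.1) (univ.filter (fun c => ∃ e' ∈ W, r e.1 e'.2 ∧
          stage r l idx W π k e' = some c))]
      · rw [List.getElem?_map]
      · intro c
        rw [Finset.mem_filter, Finset.mem_filter]
        simp only [Finset.mem_univ, true_and]
        constructor
        · rintro ⟨e', h1, h2, h3⟩
          refine ⟨e', h1, h2, ?_⟩
          rw [ih e', Option.map_eq_some_iff] at h3
          obtain ⟨a, h4, h5⟩ := h3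
          rw [h4, τ.injective h5]
        · rintro ⟨e', h1, h2, h3⟩
          refine ⟨e', h1, h2, ?_⟩
          rw [ih e', h3]
          rfl
    · rw [if_neg he, if_neg he]
      exact ih e

end Symm

open Symm

theorem pr_stage (r : X → Y → Prop) (l : X → ℕ) (idx : Y → ℕ) (W : Finset (X × Y)) {D : ℕ}
    (k : ℕ) (e : X × Y)
    (hs : ∀ π : X → Equiv.Perm (Fin D), ∃ c, stage r l idx W π k e = some c) (c₀ : Fin D) :
    pr (fun π : X → Equiv.Perm (Fin D) => stage r l idx W π k e = some c₀) = 1 / D := by
  have hD : 0 < D := lt_of_le_of_lt (Nat.zero_le _) c₀.2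
  have hcard : ∀ c : Fin D,
      (univ.filter (fun π : X → Equiv.Perm (Fin D) => stage r l idx W π k e = some c)).card =
      (univ.filter (fun π : X → Equiv.Perm (Fin D) => stage r l idx W π k e = some c₀)).card := by
    intro c
    refine Finset.card_bij' (fun π _ => fun x => Equiv.swap c c₀ * π x)
      (fun π _ => fun x => Equiv.swap c c₀ * π x) ?_ ?_ ?_ ?_
    · intro π hπ
      rw [Finset.mem_filter] at hπ ⊢
      refine ⟨Finset.mem_univ _, ?_⟩
      rw [stage_mul, hπ.2]
      simp
    · intro π hπ
      rw [Finset.mem_filter] at hπ ⊢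
      refine ⟨Finset.mem_univ _, ?_⟩
      rw [stage_mul, hπ.2]
      simp
    · intro π _
      funext x
      rw [← mul_assoc, Equiv.swap_mul_self, one_mul]
    · intro π _
      funext x
      rw [← mul_assoc, Equiv.swap_mul_self, one_mul]
  choose f hf using hs
  have hfib : (univ : Finset (X → Equiv.Perm (Fin D))).card =
      ∑ c : Fin D, (univ.filter (fun π : X → Equiv.Perm (Fin D) => f π = c)).card :=
    Finset.card_eq_sum_card_fiberwise (fun _ _ => Finset.mem_coe.2 (Finset.mem_univ _))
  have hfe : ∀ c : Fin D, univ.filter (fun π : X → Equiv.Perm (Fin D) => f π = c) =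
      univ.filter (fun π : X → Equiv.Perm (Fin D) => stage r l idx W π k e = some c) := by
    intro c
    ext π
    rw [Finset.mem_filter, Finset.mem_filter, hf π, Option.some.injEq]
  have htot : (Fintype.card (X → Equiv.Perm (Fin D))) =
      D * (univ.filter
        (fun π : X → Equiv.Perm (Fin D) => stage r l idx W π k e = some c₀)).card := by
    rw [← Finset.card_univ, hfib, Finset.sum_congr rfl fun c _ => by rw [hfe c, hcard c],
      Finset.sum_const, Finset.card_univ, Fintype.card_fin, smul_eq_mul]
  have hpos : 0 < Fintype.card (X → Equiv.Perm (Fin D)) := Fintype.card_pos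
  have hA : (0 : ℝ) < ((univ.filter
        (fun π : X → Equiv.Perm (Fin D) => stage r l idx W π k e = some c₀)).card : ℝ) := by
    rw [htot] at hpos
    exact_mod_cast Nat.pos_of_mul_pos_left hpos
  rw [pr_eq, htot]
  push_cast
  have hD' : (0 : ℝ) < D := by exact_mod_cast hD
  field_simp

end Pool.Agent.SEC
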