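import Pool.Agent.Helper66.SEC.Proper
import Pool.Agent.Helper66.SEC.Sym
import Pool.Agent.Helper66.SEC.First

set_option autoImplicit false

namespace Pool.Agent.SEC

open Finset
open scoped Classical

namespace One

theorem pr_eq_sum {Ω : Type} [Fintype Ω] (p : Ω → Prop) :
    pr p = (∑ ω, if p ω then (1 : ℝ) else 0) / Fintype.card Ω := by
  unfold pr
  rw [Finset.card_filter]
  push_cast
  rfl

theorem pr_mono {Ω : Type} [Fintype Ω] {p q : Ω → Prop} (h : ∀ ω, p ω → q ω) : pr p ≤ pr q := by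
  unfold pr
  gcongr
  exact h _

theorem pr_nonneg {Ω : Type} [Fintype Ω] (p : Ω → Prop) : 0 ≤ pr p := by
  unfold pr
  positivity

theorem pr_or_le {Ω : Type} [Fintype Ω] (p q : Ω → Prop) :
    pr (fun ω => p ω ∨ q ω) ≤ pr p + pr q := by
  unfold pr
  rw [← add_div]
  have h : @Finset.filter Ω (fun ω => p ω ∨ q ω) (fun _ => Classical.propDecidable _) univ =
      univ.filter p ∪ univ.filter q := by
    ext ω; simp
  rw [h]
  gcongr
  exact_mod_cast card_union_le _ _

theorem pr_zero {Ω : Type} [Fintype Ω] {p : Ω → Prop} (h : ∀ ω, ¬ p ω) : pr p = 0 := by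
  unfold pr
  rw [filter_false_of_mem (fun ω _ => h ω)]
  simp

variable {X Y : Type} [Fintype X] [Fintype Y]

theorem pr_split {α β : Type} [Fintype α] [Fintype β] (p : (X → α) → (X → β) → Prop) :
    pr (fun ω : X → α × β => p (fun x => (ω x).1) (fun x => (ω x).2)) =
      (∑ l : X → α, pr (p l)) / Fintype.card (X → α) := by
  have h1 : (∑ ω : X → α × β, if p (fun x => (ω x).1) (fun x => (ω x).2) then (1 : ℝ) else 0) =
      ∑ l : X → α, ∑ π : X → β, if p l π then (1 : ℝ) else 0 := by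
    rw [← Fintype.sum_prod_type' (f := fun (l : X → α) (π : X → β) => if p l π then (1 : ℝ) else 0)]
    exact Fintype.sum_equiv (Equiv.arrowProdEquivProdArrow X (fun _ => α) (fun _ => β)) _ _
      (fun ω => rfl)
  have h2 : (Fintype.card (X → α × β) : ℝ) = Fintype.card (X → α) * Fintype.card (X → β) := by
    rw [Fintype.card_congr (Equiv.arrowProdEquivProdArrow X (fun _ => α) (fun _ => β)),
      Fintype.card_prod]
    push_cast
    rfl
  rw [pr_eq_sum, h1, h2]
  simp only [pr_eq_sum]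
  rw [← Finset.sum_div, div_div, mul_comm (Fintype.card (X → α) : ℝ)]

end One

open Pool.Agent.SEC.One

variable {X Y : Type} [Fintype X] [Fintype Y]

theorem cls_indMatch (r : X → Y → Prop) (K N : ℕ) (idx : Y → ℕ) (hidx : Function.Injective idx)
    (U : Finset (X × Y)) (hU : U ⊆ edges r) {D : ℕ} (c₀ : Fin D)
    (ω : X → Fin N × Equiv.Perm (Fin D)) : IndMatch r (cls r K idx U c₀ ω) := by
  intro e he e' he' hne
  unfold cls at he he'
  rw [mem_filter] at he he'
  exact stage_induced r K (lev ω) idx hidx U hU (per ω) he.1 he'.1 hne he.2 he'.2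

/-- conditional probability given the levels -/
theorem pr_given (r : X → Y → Prop) (K : ℕ) (l : X → ℕ) (idx : Y → ℕ)
    (hidx : Function.Injective idx)
    (U : Finset (X × Y)) (hU : U ⊆ edges r) {D : ℕ} (c₀ : Fin D) (e : X × Y) :
    pr (fun π : X → Equiv.Perm (Fin D) => e ∈ used r K l U D ∧
      stage r l idx (used r K l U D) π K e = some c₀) =
      (if e ∈ used r K l U D then (1 : ℝ) else 0) / D := by
  by_cases he : e ∈ used r K l U D
  · simp only [he, true_and, if_true]
    exact pr_stage r l idx _ K e (fun π => stage_isSome r K l idx hidx U hU π he) c₀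
  · simp only [he, false_and, if_false, zero_div]
    unfold pr
    simp

theorem pr_cls_eq (r : X → Y → Prop) (K N : ℕ) (idx : Y → ℕ) (hidx : Function.Injective idx)
    (U : Finset (X × Y)) (hU : U ⊆ edges r) {D : ℕ} (c₀ : Fin D) (e : X × Y) :
    pr (fun ω : X → Fin N × Equiv.Perm (Fin D) => e ∈ cls r K idx U c₀ ω) =
      pr (fun l : X → Fin N => e ∈ used r K (fun z => (l z : ℕ)) U D) / D := by
  have h1 := pr_split (X := X) (α := Fin N) (β := Equiv.Perm (Fin D))
    (fun l π => e ∈ used r K (fun z => (l z : ℕ)) U D ∧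
      stage r (fun z => (l z : ℕ)) idx (used r K (fun z => (l z : ℕ)) U D) π K e = some c₀)
  simp only [pr_given r K _ idx hidx U hU c₀ e] at h1
  have h2 : pr (fun ω : X → Fin N × Equiv.Perm (Fin D) => e ∈ cls r K idx U c₀ ω) =
      pr (fun ω : X → Fin N × Equiv.Perm (Fin D) =>
        e ∈ used r K (fun z => ((ω z).1 : ℕ)) U D ∧
        stage r (fun z => ((ω z).1 : ℕ)) idx (used r K (fun z => ((ω z).1 : ℕ)) U D)
          (fun x => (ω x).2) K e = some c₀) := by
    unfold cls lev per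
    simp only [mem_filter]
  rw [h2, h1, pr_eq_sum, ← Finset.sum_div, div_right_comm]
  refine congrArg₂ _ (congrArg₂ _ (Finset.sum_congr rfl fun i _ => by congr) rfl) rfl

theorem pr_cls_ge (r : X → Y → Prop) (K N : ℕ) (idx : Y → ℕ) (hidx : Function.Injective idx)
    (U : Finset (X × Y)) (hU : U ⊆ edges r) {D : ℕ} (c₀ : Fin D) {e : X × Y} (he : e ∈ U)
    (P δ : ℝ) (hP : P ≤ pr (fun l : X → Fin N => IsFirst r K (fun z => (l z : ℕ)) e.1 e.2))
    (hδ : pr (fun l : X → Fin N => D < load r K (fun z => (l z : ℕ)) U e.1) ≤ δ) :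
    (P - δ) / D ≤ pr (fun ω : X → Fin N × Equiv.Perm (Fin D) => e ∈ cls r K idx U c₀ ω) := by
  rw [pr_cls_eq r K N idx hidx U hU c₀ e]
  gcongr
  have h1 : pr (fun l : X → Fin N => IsFirst r K (fun z => (l z : ℕ)) e.1 e.2) ≤
      pr (fun l : X → Fin N => e ∈ used r K (fun z => (l z : ℕ)) U D ∨
        D < load r K (fun z => (l z : ℕ)) U e.1) := by
    apply pr_mono
    intro l hl
    by_cases h : D < load r K (fun z => (l z : ℕ)) U e.1
    · exact Or.inr h
    · left
      unfold used act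
      rw [mem_filter, mem_filter]
      exact ⟨⟨he, hl⟩, not_lt.mp h⟩
  have h2 := pr_or_le (fun l : X → Fin N => e ∈ used r K (fun z => (l z : ℕ)) U D)
    (fun l => D < load r K (fun z => (l z : ℕ)) U e.1)
  linarith

theorem pr_cls_pair (r : X → Y → Prop) (K N : ℕ) (idx : Y → ℕ) (hidx : Function.Injective idx)
    (U : Finset (X × Y)) (hU : U ⊆ edges r) {D : ℕ} (c₀ : Fin D) {e e' : X × Y} (hne : e ≠ e') :
    pr (fun ω : X → Fin N × Equiv.Perm (Fin D) =>
      e ∈ cls r K idx U c₀ ω ∧ e' ∈ cls r K idx U c₀ ω) ≤ ((K : ℝ) / N) ^ 2 / D := by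
  by_cases hx : e.1 = e'.1
  · have : pr (fun ω : X → Fin N × Equiv.Perm (Fin D) =>
      e ∈ cls r K idx U c₀ ω ∧ e' ∈ cls r K idx U c₀ ω) = 0 := by
      apply pr_zero
      rintro ω ⟨h1, h2⟩
      apply cls_indMatch r K N idx hidx U hU c₀ ω e h1 e' h2 hne
      unfold cls used act at h2
      simp only [mem_filter] at h2
      rw [hx]
      exact h2.1.1.2.1
    rw [this]
    positivity
  · have h1 : pr (fun ω : X → Fin N × Equiv.Perm (Fin D) =>
        e ∈ cls r K idx U c₀ ω ∧ e' ∈ cls r K idx U c₀ ω) ≤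
        pr (fun ω : X → Fin N × Equiv.Perm (Fin D) =>
          (((ω e.1).1 : ℕ) < K ∧ ((ω e'.1).1 : ℕ) < K) ∧
          (e ∈ used r K (fun z => ((ω z).1 : ℕ)) U D ∧
          stage r (fun z => ((ω z).1 : ℕ)) idx (used r K (fun z => ((ω z).1 : ℕ)) U D)
            (fun x => (ω x).2) K e = some c₀)) := by
      apply pr_mono
      rintro ω ⟨h1, h2⟩
      unfold cls at h1 h2
      rw [mem_filter] at h1 h2
      have h3 := h1.1
      have h4 := h2.1
      unfold used act at h3 h4
      simp only [mem_filter] at h3 h4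
      exact ⟨⟨h3.1.2.2.1, h4.1.2.2.1⟩, h1⟩
    refine h1.trans ?_
    have h2 := pr_split (X := X) (α := Fin N) (β := Equiv.Perm (Fin D))
      (fun l π => ((l e.1 : ℕ) < K ∧ (l e'.1 : ℕ) < K) ∧ (e ∈ used r K (fun z => (l z : ℕ)) U D ∧
        stage r (fun z => (l z : ℕ)) idx (used r K (fun z => (l z : ℕ)) U D) π K e = some c₀))
    rw [h2]
    have h3 : ∀ l : X → Fin N, pr (fun π : X → Equiv.Perm (Fin D) =>
        ((l e.1 : ℕ) < K ∧ (l e'.1 : ℕ) < K) ∧ (e ∈ used r K (fun z => (l z : ℕ)) U D ∧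
        stage r (fun z => (l z : ℕ)) idx (used r K (fun z => (l z : ℕ)) U D) π K e = some c₀)) ≤
        (if (l e.1 : ℕ) < K ∧ (l e'.1 : ℕ) < K then (1 : ℝ) else 0) / D := by
      intro l
      by_cases hl : (l e.1 : ℕ) < K ∧ (l e'.1 : ℕ) < K
      · simp only [hl, and_self, true_and, if_true]
        rw [pr_given r K _ idx hidx U hU c₀ e]
        gcongr
        split_ifs <;> norm_num
      · simp only [hl, false_and, if_false, zero_div]
        unfold pr
        simp
    have h4 : (∑ l : X → Fin N, pr (fun π : X → Equiv.Perm (Fin D) =>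
        ((l e.1 : ℕ) < K ∧ (l e'.1 : ℕ) < K) ∧ (e ∈ used r K (fun z => (l z : ℕ)) U D ∧
        stage r (fun z => (l z : ℕ)) idx (used r K (fun z => (l z : ℕ)) U D) π K e = some c₀))) /
        Fintype.card (X → Fin N) ≤
        pr (fun l : X → Fin N => (l e.1 : ℕ) < K ∧ (l e'.1 : ℕ) < K) / D := by
      rw [pr_eq_sum, div_right_comm]
      gcongr
      rw [Finset.sum_div]
      refine Finset.sum_le_sum (fun l _ => ?_)
      exact (h3 l).trans_eq (by congr)
    refine h4.trans ?_
    gcongr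
    exact pr_two_levels K N hx

end Pool.Agent.SEC
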