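import Pool.Agent.Helper66.SEC.Defs

/-!
# S7: moments and tail of the number of uncovered edges
-/

set_option autoImplicit false

namespace Pool.Agent.SEC

open Finset
open scoped Classical

namespace Tail

lemma pr_nonneg {Ω : Type} [Fintype Ω] (p : Ω → Prop) : 0 ≤ pr p := by
  unfold pr
  positivity

lemma pr_le_one {Ω : Type} [Fintype Ω] (p : Ω → Prop) : pr p ≤ 1 := by
  unfold pr
  apply div_le_one_of_le₀
  · have h := card_le_univ (univ.filter p)
    exact_mod_cast h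
  · positivity

lemma mem_fil {Ω : Type} {s : Finset Ω} {p : Ω → Prop} {inst : DecidablePred p} {ω : Ω} :
    ω ∈ @Finset.filter Ω p inst s ↔ ω ∈ s ∧ p ω := mem_filter

/-- indicator of a proposition -/
noncomputable def ind (P : Prop) : ℝ := if P then 1 else 0

lemma ind_pos {P : Prop} (h : P) : ind P = 1 := if_pos h

lemma ind_neg {P : Prop} (h : ¬ P) : ind P = 0 := if_neg h

lemma sum_ind {ι : Type} (s : Finset ι) (P : ι → Prop) [DecidablePred P] :
    ∑ i ∈ s, ind (P i) = ((s.filter P).card : ℝ) := by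
  rw [card_filter, Nat.cast_sum]
  refine sum_congr rfl fun i _ => ?_
  by_cases h : P i
  · rw [ind_pos h, if_pos h, Nat.cast_one]
  · rw [ind_neg h, if_neg h, Nat.cast_zero]

lemma pr_eq_sum {Ω : Type} [Fintype Ω] (p : Ω → Prop) :
    pr p = (∑ ω, ind (p ω)) / Fintype.card Ω := by
  unfold pr
  rw [sum_ind]

/-- a pointwise inequality gives an inequality of probabilities -/
lemma pr_le_of_sum {Ω ι : Type} [Fintype Ω] (p : Ω → Prop) (s : Finset ι) (c : ι → ℝ)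
    (A : ι → Ω → Prop)
    (h : ∀ ω, ind (p ω) ≤ ∑ i ∈ s, c i * ind (A i ω)) :
    pr p ≤ ∑ i ∈ s, c i * pr (A i) := by
  have h1 : ∑ i ∈ s, c i * pr (A i) =
      (∑ ω, ∑ i ∈ s, c i * ind (A i ω)) / Fintype.card Ω := by
    rw [sum_comm, sum_div]
    refine sum_congr rfl fun i _ => ?_
    rw [pr_eq_sum, ← mul_sum, mul_div_assoc]
  rw [h1, pr_eq_sum]
  exact div_le_div_of_nonneg_right (sum_le_sum fun ω _ => h ω) (by positivity)

lemma pr_congr {Ω : Type} [Fintype Ω] {p q : Ω → Prop} (h : ∀ ω, p ω ↔ q ω) : pr p = pr q := by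
  have : p = q := funext fun ω => propext (h ω)
  rw [this]

/-- Bonferroni -/
lemma bonf {Ω ι : Type} [Fintype Ω] [Nonempty Ω] (Q : Finset ι) (A : ι → Ω → Prop) (p q : ℝ)
    (hp : ∀ e ∈ Q, p ≤ pr (A e))
    (hq : ∀ e ∈ Q, ∀ e' ∈ Q, e ≠ e' → pr (fun ω => A e ω ∧ A e' ω) ≤ q) (hq0 : 0 ≤ q) :
    pr (fun ω => ∀ e ∈ Q, ¬ A e ω) ≤ 1 - (Q.card * p - (Q.card : ℝ) ^ 2 * q / 2) := by
  have hpt : ∀ ω, ind (∀ e ∈ Q, ¬ A e ω) ≤
      1 - (∑ e ∈ Q, ind (A e ω)) + (∑ x ∈ Q.offDiag, ind (A x.1 ω ∧ A x.2 ω)) / 2 := by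
    intro ω
    set n := (Q.filter (fun e => A e ω)).card with hn
    have h1 : (∑ e ∈ Q, ind (A e ω)) = n := sum_ind _ _
    have h2 : (∑ x ∈ Q.offDiag, ind (A x.1 ω ∧ A x.2 ω)) = (n : ℝ) * n - n := by
      rw [sum_ind Q.offDiag (fun x => A x.1 ω ∧ A x.2 ω)]
      have h3 : Q.offDiag.filter (fun x => A x.1 ω ∧ A x.2 ω) =
          (Q.filter (fun e => A e ω)).offDiag := by
        ext x
        simp only [mem_filter, mem_offDiag]
        tauto
      rw [h3, offDiag_card, Nat.cast_sub, Nat.cast_mul]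
      exact Nat.le_mul_self _
    rw [h1, h2]
    by_cases h0 : ∀ e ∈ Q, ¬ A e ω
    · have : n = 0 := by
        rw [hn, card_eq_zero, filter_eq_empty_iff]
        exact fun e he => h0 e he
      rw [ind_pos h0, this]
      norm_num
    · rw [ind_neg h0]
      rcases Nat.lt_or_ge n 2 with h4 | h4
      · interval_cases n <;> norm_num
      · have : (2 : ℝ) ≤ n := by exact_mod_cast h4
        nlinarith
  have hN : (0 : ℝ) < Fintype.card Ω := by exact_mod_cast Fintype.card_pos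
  have hsum : pr (fun ω => ∀ e ∈ Q, ¬ A e ω) ≤
      1 - (∑ e ∈ Q, pr (A e)) + (∑ x ∈ Q.offDiag, pr (fun ω => A x.1 ω ∧ A x.2 ω)) / 2 := by
    have h5 : (1 - (∑ e ∈ Q, pr (A e)) +
        (∑ x ∈ Q.offDiag, pr (fun ω => A x.1 ω ∧ A x.2 ω)) / 2) =
        (∑ ω, (1 - (∑ e ∈ Q, ind (A e ω)) + (∑ x ∈ Q.offDiag, ind (A x.1 ω ∧ A x.2 ω)) / 2)) /
          Fintype.card Ω := by
      have e2 : ∑ e ∈ Q, pr (A e) = (∑ e ∈ Q, ∑ ω : Ω, ind (A e ω)) / Fintype.card Ω := by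
        rw [sum_div]
        exact sum_congr rfl fun e _ => pr_eq_sum _
      have e3 : ∑ x ∈ Q.offDiag, pr (fun ω => A x.1 ω ∧ A x.2 ω) =
          (∑ x ∈ Q.offDiag, (∑ ω : Ω, ind (A x.1 ω ∧ A x.2 ω))) / Fintype.card Ω := by
        rw [sum_div]
        exact sum_congr rfl fun x _ => pr_eq_sum _
      have e4 : ∑ ω : Ω, (1 - (∑ e ∈ Q, ind (A e ω)) +
          (∑ x ∈ Q.offDiag, ind (A x.1 ω ∧ A x.2 ω)) / 2) =
          (Fintype.card Ω : ℝ) - (∑ e ∈ Q, ∑ ω : Ω, ind (A e ω)) +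
          (∑ x ∈ Q.offDiag, ∑ ω : Ω, ind (A x.1 ω ∧ A x.2 ω)) / 2 := by
        rw [sum_add_distrib, sum_sub_distrib, ← sum_div, sum_comm (s := univ) (t := Q),
          sum_comm (s := univ) (t := Q.offDiag), sum_const, card_univ, nsmul_eq_mul, mul_one]
      rw [e2, e3, e4]
      field_simp
    rw [h5, pr_eq_sum]
    exact div_le_div_of_nonneg_right (sum_le_sum fun ω _ => hpt ω) hN.le
  refine hsum.trans ?_
  have h6 : (Q.card : ℝ) * p ≤ ∑ e ∈ Q, pr (A e) := by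
    rw [← nsmul_eq_mul]
    exact card_nsmul_le_sum _ _ _ hp
  have h7 : ∑ x ∈ Q.offDiag, pr (fun ω => A x.1 ω ∧ A x.2 ω) ≤ (Q.card : ℝ) ^ 2 * q := by
    have h8 : ∑ x ∈ Q.offDiag, pr (fun ω => A x.1 ω ∧ A x.2 ω) ≤ (Q.offDiag.card : ℝ) * q := by
      rw [← nsmul_eq_mul]
      refine sum_le_card_nsmul _ _ _ fun x hx => ?_
      rw [mem_offDiag] at hx
      exact hq _ hx.1 _ hx.2.1 hx.2.2
    refine h8.trans (mul_le_mul_of_nonneg_right ?_ hq0)
    rw [offDiag_card]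
    have : Q.card * Q.card - Q.card ≤ Q.card ^ 2 := by
      rw [sq]
      exact Nat.sub_le _ _
    exact_mod_cast this
  linarith

/-- independence of the coordinates of `J` samples -/
lemma pr_pi {X A : Type} [Fintype X] [Fintype A] (J : ℕ) (p : (X → A) → Prop) :
    pr (fun ω : X → (Fin J → A) => ∀ j, p (fun x => ω x j)) = pr p ^ J := by
  unfold pr
  have h3 : Fintype.card (X → (Fin J → A)) = Fintype.card (X → A) ^ J := by
    simp only [Fintype.card_fun, Fintype.card_fin]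
    rw [← pow_mul, ← pow_mul, mul_comm]
  rw [div_pow, h3, Nat.cast_pow, ← Nat.cast_pow (univ.filter p).card]
  congr 2
  have h2 : (Fintype.piFinset (fun _ : Fin J => univ.filter p)).card =
      (univ.filter p).card ^ J := by
    rw [Fintype.card_piFinset, prod_const, card_univ, Fintype.card_fin]
  rw [← h2]
  refine card_bij' (fun ω _ => fun j x => ω x j) (fun g _ => fun x j => g j x) ?_ ?_ ?_ ?_
  · intro ω hω
    rw [Fintype.mem_piFinset]
    intro j
    rw [mem_filter]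
    exact ⟨mem_univ _, (mem_fil.mp hω).2 j⟩
  · intro g hg
    rw [Fintype.mem_piFinset] at hg
    exact mem_fil.mpr ⟨mem_univ _, fun j => (mem_fil.mp (hg j)).2⟩
  · intro ω _
    rfl
  · intro g _
    rfl

end Tail

open Tail

variable {X Y : Type} [Fintype X] [Fintype Y]

/-- All of `Q` stays uncovered. -/
theorem pr_left_all (r : X → Y → Prop) (K : ℕ) (idx : Y → ℕ) (U Q : Finset (X × Y)) (hQ : Q ⊆ U)
    {N D : ℕ} (J : ℕ) (hN : 0 < N) (c₀ : Fin D) (p q : ℝ)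
    (hp : ∀ e ∈ Q, p ≤ pr (fun ω : X → Fin N × Equiv.Perm (Fin D) => e ∈ cls r K idx U c₀ ω))
    (hq : ∀ e ∈ Q, ∀ e' ∈ Q, e ≠ e' → pr (fun ω : X → Fin N × Equiv.Perm (Fin D) =>
      e ∈ cls r K idx U c₀ ω ∧ e' ∈ cls r K idx U c₀ ω) ≤ q) (hq0 : 0 ≤ q) :
    pr (fun ω : X → (Fin J → Fin N × Equiv.Perm (Fin D)) => ∀ e ∈ Q, e ∈ left r K idx U c₀ ω) ≤
      Real.exp (-(J * (Q.card * p - (Q.card : ℝ) ^ 2 * q / 2))) := by
  have : Nonempty (Fin N) := ⟨⟨0, hN⟩⟩
  have h1 : pr (fun ω : X → (Fin J → Fin N × Equiv.Perm (Fin D)) =>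
      ∀ e ∈ Q, e ∈ left r K idx U c₀ ω) =
      pr (fun ω : X → Fin N × Equiv.Perm (Fin D) => ∀ e ∈ Q, ¬ e ∈ cls r K idx U c₀ ω) ^ J := by
    rw [← pr_pi J (fun ω : X → Fin N × Equiv.Perm (Fin D) =>
      ∀ e ∈ Q, ¬ e ∈ cls r K idx U c₀ ω)]
    refine pr_congr fun ω => ⟨fun h j e he => ?_, fun h e he => ?_⟩
    · have := h e he
      rw [left, mem_filter] at this
      exact this.2 j
    · rw [left, mem_filter]
      exact ⟨hQ he, fun j => h j e he⟩
  rw [h1]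
  have h2 := bonf Q (fun e (ω : X → Fin N × Equiv.Perm (Fin D)) => e ∈ cls r K idx U c₀ ω)
    p q hp hq hq0
  have h3 : pr (fun ω : X → Fin N × Equiv.Perm (Fin D) => ∀ e ∈ Q, ¬ e ∈ cls r K idx U c₀ ω) ≤
      Real.exp (-(Q.card * p - (Q.card : ℝ) ^ 2 * q / 2)) := by
    refine h2.trans ?_
    have := Real.add_one_le_exp (-(Q.card * p - (Q.card : ℝ) ^ 2 * q / 2))
    linarith
  calc pr (fun ω : X → Fin N × Equiv.Perm (Fin D) => ∀ e ∈ Q, ¬ e ∈ cls r K idx U c₀ ω) ^ J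
      ≤ Real.exp (-(Q.card * p - (Q.card : ℝ) ^ 2 * q / 2)) ^ J :=
        pow_le_pow_left₀ (pr_nonneg _) h3 J
    _ = Real.exp (-(J * (Q.card * p - (Q.card : ℝ) ^ 2 * q / 2))) := by
        rw [← Real.exp_nat_mul]
        congr 1
        ring

/-- Upper tail of the number of uncovered edges of `S`. -/
theorem pr_left_tail (r : X → Y → Prop) (K : ℕ) (idx : Y → ℕ) (U S : Finset (X × Y)) (hS : S ⊆ U)
    {N D : ℕ} (J : ℕ) (hN : 0 < N) (c₀ : Fin D) (p q : ℝ)
    (hp : ∀ e ∈ S, p ≤ pr (fun ω : X → Fin N × Equiv.Perm (Fin D) => e ∈ cls r K idx U c₀ ω))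
    (hq : ∀ e ∈ S, ∀ e' ∈ S, e ≠ e' → pr (fun ω : X → Fin N × Equiv.Perm (Fin D) =>
      e ∈ cls r K idx U c₀ ω ∧ e' ∈ cls r K idx U c₀ ω) ≤ q) (hq0 : 0 ≤ q)
    (B s k : ℕ) (hSB : S.card ≤ B) (hk : k < s) :
    pr (fun ω : X → (Fin J → Fin N × Equiv.Perm (Fin D)) =>
      s ≤ (S.filter (fun e => e ∈ left r K idx U c₀ ω)).card) ≤
      (B * Real.exp (-(J * (p - k * q / 2))) / (s - k)) ^ k := by
  have hck : (0 : ℝ) < s.choose k := by exact_mod_cast Nat.choose_pos hk.le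
  set θ := Real.exp (-(J * (p - k * q / 2))) with hθ
  have hθk : Real.exp (-(J * (k * p - (k : ℝ) ^ 2 * q / 2))) = θ ^ k := by
    rw [hθ, ← Real.exp_nat_mul]
    congr 1
    ring
  -- moment bound
  have h1 : pr (fun ω : X → (Fin J → Fin N × Equiv.Perm (Fin D)) =>
      s ≤ (S.filter (fun e => e ∈ left r K idx U c₀ ω)).card) ≤
      ∑ Q ∈ S.powersetCard k, (1 / (s.choose k : ℝ)) *
        pr (fun ω : X → (Fin J → Fin N × Equiv.Perm (Fin D)) =>
          ∀ e ∈ Q, e ∈ left r K idx U c₀ ω) := by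
    refine pr_le_of_sum _ (S.powersetCard k) (fun _ => 1 / (s.choose k : ℝ))
      (fun Q ω => ∀ e ∈ Q, e ∈ left r K idx U c₀ ω) fun ω => ?_
    rw [← mul_sum]
    rw [sum_ind (S.powersetCard k) (fun Q => ∀ e ∈ Q, e ∈ left r K idx U c₀ ω)]
    have h2 : (S.powersetCard k).filter (fun Q => ∀ e ∈ Q, e ∈ left r K idx U c₀ ω) =
        (S.filter (fun e => e ∈ left r K idx U c₀ ω)).powersetCard k := by
      ext Q
      simp only [mem_filter, mem_powersetCard, subset_iff]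
      constructor
      · rintro ⟨⟨ha, hb⟩, hc⟩
        exact ⟨fun e he => ⟨ha he, hc e he⟩, hb⟩
      · rintro ⟨ha, hb⟩
        exact ⟨⟨fun e he => (ha he).1, hb⟩, fun e he => (ha he).2⟩
    rw [h2, card_powersetCard]
    by_cases h3 : s ≤ (S.filter (fun e => e ∈ left r K idx U c₀ ω)).card
    · rw [ind_pos h3, one_div, ← div_eq_inv_mul, one_le_div hck]
      exact_mod_cast Nat.choose_le_choose k h3
    · rw [ind_neg h3]
      positivity
  have h4 : ∑ Q ∈ S.powersetCard k, (1 / (s.choose k : ℝ)) *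
        pr (fun ω : X → (Fin J → Fin N × Equiv.Perm (Fin D)) =>
          ∀ e ∈ Q, e ∈ left r K idx U c₀ ω) ≤
      (S.powersetCard k).card • ((1 / (s.choose k : ℝ)) * θ ^ k) := by
    refine sum_le_card_nsmul _ _ _ fun Q hQ => ?_
    rw [mem_powersetCard] at hQ
    refine mul_le_mul_of_nonneg_left ?_ (by positivity)
    have h5 := pr_left_all r K idx U Q (hQ.1.trans hS) J hN c₀ p q (fun e he => hp e (hQ.1 he))
      (fun e he e' he' => hq e (hQ.1 he) e' (hQ.1 he')) hq0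
    rw [hQ.2, hθk] at h5
    exact h5
  refine (h1.trans h4).trans ?_
  rw [card_powersetCard, nsmul_eq_mul]
  have hsk : (0 : ℝ) < (s : ℝ) - k := by
    have : (k : ℝ) < s := by exact_mod_cast hk
    linarith
  have hfac : (0 : ℝ) < (k.factorial : ℝ) := by exact_mod_cast Nat.factorial_pos k
  have h6 : (k.factorial : ℝ) * (S.card.choose k : ℝ) ≤ (B : ℝ) ^ k := by
    have : k.factorial * S.card.choose k ≤ B ^ k := by
      rw [← Nat.descFactorial_eq_factorial_mul_choose]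
      exact (Nat.descFactorial_le_pow _ _).trans (Nat.pow_le_pow_left hSB k)
    exact_mod_cast this
  have h7 : ((s : ℝ) - k) ^ k ≤ (k.factorial : ℝ) * (s.choose k : ℝ) := by
    have h8 : (s - k) ^ k ≤ k.factorial * s.choose k := by
      rw [← Nat.descFactorial_eq_factorial_mul_choose]
      exact (Nat.pow_le_pow_left (by omega) k).trans (Nat.pow_sub_le_descFactorial s k)
    have h9 : (((s - k : ℕ) : ℝ)) ^ k ≤ (k.factorial : ℝ) * (s.choose k : ℝ) := by
      exact_mod_cast h8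
    rwa [Nat.cast_sub hk.le] at h9
  have hθ0 : 0 ≤ θ ^ k := by positivity
  have h10 : (S.card.choose k : ℝ) * (1 / (s.choose k : ℝ)) ≤ (B : ℝ) ^ k / ((s : ℝ) - k) ^ k := by
    rw [mul_one_div, div_le_div_iff₀ hck (by positivity)]
    have h11 : (k.factorial : ℝ) * ((S.card.choose k : ℝ) * ((s : ℝ) - k) ^ k) ≤
        (k.factorial : ℝ) * ((B : ℝ) ^ k * (s.choose k : ℝ)) := by
      calc (k.factorial : ℝ) * ((S.card.choose k : ℝ) * ((s : ℝ) - k) ^ k)
          = ((k.factorial : ℝ) * (S.card.choose k : ℝ)) * ((s : ℝ) - k) ^ k := by ring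
        _ ≤ (B : ℝ) ^ k * ((k.factorial : ℝ) * (s.choose k : ℝ)) :=
            mul_le_mul h6 h7 (by positivity) (by positivity)
        _ = _ := by ring
    exact le_of_mul_le_mul_left h11 hfac
  calc (S.card.choose k : ℝ) * (1 / (s.choose k : ℝ) * θ ^ k)
      = ((S.card.choose k : ℝ) * (1 / (s.choose k : ℝ))) * θ ^ k := by ring
    _ ≤ ((B : ℝ) ^ k / ((s : ℝ) - k) ^ k) * θ ^ k := mul_le_mul_of_nonneg_right h10 hθ0
    _ = (B * θ / (s - k)) ^ k := by
        rw [div_pow, mul_pow]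
        ring

end Pool.Agent.SEC
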