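import Pool.Agent.Helper66.SEC.LLL
import Pool.Agent.Helper66.SEC.First
import Pool.Agent.Helper66.SEC.One
import Pool.Agent.Helper66.SEC.Local
import Pool.Agent.Helper66.SEC.Tail

/-!
# One phase (S8)
-/

set_option autoImplicit false

namespace Pool.Agent.SEC

open Finset
open scoped Classical

namespace Phase

/-! ### elementary facts on `pr` -/

theorem pr_nonneg {Ω : Type} [Fintype Ω] (p : Ω → Prop) : 0 ≤ pr p := by
  unfold pr; positivity

theorem pr_mono {Ω : Type} [Fintype Ω] {p q : Ω → Prop} (h : ∀ ω, p ω → q ω) : pr p ≤ pr q := by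
  unfold pr
  refine div_le_div_of_nonneg_right ?_ (by positivity)
  exact_mod_cast card_le_card (fun ω hω => by
    rw [mem_filter] at hω ⊢
    exact ⟨hω.1, h ω hω.2⟩)

theorem pr_or_le {Ω : Type} [Fintype Ω] (p q : Ω → Prop) :
    pr (fun ω => p ω ∨ q ω) ≤ pr p + pr q := by
  unfold pr
  rw [← add_div]
  refine div_le_div_of_nonneg_right ?_ (by positivity)
  rw [← Nat.cast_add, Nat.cast_le]
  refine le_trans (card_le_card ?_) (card_union_le _ _)
  intro ω hω
  simp only [Finset.mem_union, Finset.mem_filter, mem_univ, true_and] at hω ⊢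
  exact hω

theorem pr_false {Ω : Type} [Fintype Ω] {p : Ω → Prop} (h : ∀ ω, ¬ p ω) : pr p = 0 := by
  unfold pr
  rw [filter_false_of_mem (fun ω _ => h ω)]
  simp

theorem pr_exists_le {Ω ι : Type} [Fintype Ω] (s : Finset ι) (p : ι → Ω → Prop) :
    pr (fun ω => ∃ i ∈ s, p i ω) ≤ ∑ i ∈ s, pr (p i) := by
  induction s using Finset.induction_on with
  | empty =>
    rw [pr_false (fun ω => by simp)]
    simp
  | insert a s ha ih =>
    rw [sum_insert ha]
    refine le_trans (pr_mono (q := fun ω => p a ω ∨ ∃ i ∈ s, p i ω) ?_)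
      ((pr_or_le _ _).trans (by gcongr))
    intro ω
    simp only [mem_insert, exists_eq_or_imp, imp_self]

theorem pr_eq_sum {Ω : Type} [Fintype Ω] (p : Ω → Prop) :
    pr p = (∑ ω, if p ω then (1 : ℝ) else 0) / Fintype.card Ω := by
  unfold pr
  rw [Finset.sum_boole]

/-- Markov inequality together with Fubini. -/
theorem markov {Ω Λ : Type} [Fintype Ω] [Fintype Λ] (P : Ω → Λ → Prop) (b t : ℝ) (hb : 0 ≤ b)
    (ht : 0 < t) (h : ∀ l, pr (fun ω => P ω l) ≤ b) :
    pr (fun ω => t < pr (fun l => P ω l)) ≤ b / t := by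
  rw [le_div_iff₀ ht]
  have hsum : ∑ ω, pr (fun l => P ω l) ≤ b * Fintype.card Ω := by
    have h1 : ∑ ω, pr (fun l => P ω l) =
        ∑ l, (pr (fun ω => P ω l) * Fintype.card Ω) / Fintype.card Λ := by
      have h2 : ∀ l, pr (fun ω => P ω l) * Fintype.card Ω = ∑ ω, if P ω l then (1 : ℝ) else 0 := by
        intro l
        rw [pr_eq_sum]
        rcases eq_or_ne (Fintype.card Ω : ℝ) 0 with h0 | h0
        · have : IsEmpty Ω := by
            rw [← Fintype.card_eq_zero_iff]
            exact_mod_cast h0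
          simp
        · rw [div_mul_cancel₀ _ h0]
      simp_rw [h2, pr_eq_sum, ← Finset.sum_div]
      rw [Finset.sum_comm]
    rw [h1, ← Finset.sum_div]
    have h3 : ∑ l : Λ, pr (fun ω => P ω l) * (Fintype.card Ω : ℝ) ≤
        ∑ l : Λ, b * (Fintype.card Ω : ℝ) :=
      Finset.sum_le_sum fun l _ => mul_le_mul_of_nonneg_right (h l) (by positivity)
    rw [Finset.sum_const, Finset.card_univ, nsmul_eq_mul] at h3
    rcases Nat.eq_zero_or_pos (Fintype.card Λ) with h0 | h0
    · rw [h0]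
      simp only [Nat.cast_zero, div_zero]
      positivity
    · rw [div_le_iff₀ (by exact_mod_cast h0)]
      linarith
  have h4 : ((univ.filter (fun ω => t < pr (fun l => P ω l))).card : ℝ) * t ≤
      ∑ ω, pr (fun l => P ω l) := by
    calc ((univ.filter (fun ω => t < pr (fun l => P ω l))).card : ℝ) * t
        = ∑ _ω ∈ univ.filter (fun ω => t < pr (fun l => P ω l)), t := by
          rw [Finset.sum_const, nsmul_eq_mul]
      _ ≤ ∑ ω ∈ univ.filter (fun ω => t < pr (fun l => P ω l)), pr (fun l => P ω l) :=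
          Finset.sum_le_sum fun ω hω => (mem_filter.1 hω).2.le
      _ ≤ ∑ ω, pr (fun l => P ω l) :=
          Finset.sum_le_sum_of_subset_of_nonneg (filter_subset _ _)
            fun ω _ _ => pr_nonneg _
  rcases Nat.eq_zero_or_pos (Fintype.card Ω) with h0 | h0
  · unfold pr
    rw [h0]
    simp only [Nat.cast_zero, div_zero, zero_mul]
    exact hb
  · have h0' : (0 : ℝ) < Fintype.card Ω := by exact_mod_cast h0
    have h5 : pr (fun ω => t < pr (fun l => P ω l)) * t * Fintype.card Ω ≤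
        b * Fintype.card Ω := by
      have : pr (fun ω => t < pr (fun l => P ω l)) * t * Fintype.card Ω =
          ((univ.filter (fun ω => t < pr (fun l => P ω l))).card : ℝ) * t := by
        conv_lhs => rw [pr]
        field_simp
      rw [this]
      exact h4.trans hsum
    exact le_of_mul_le_mul_right h5 h0'

variable {X Y : Type} [Fintype X] [Fintype Y]

/-! ### locality of the set of uncovered edges -/

theorem mem_left_congr (r : X → Y → Prop) (K N : ℕ) (idx : Y → ℕ) (U : Finset (X × Y))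
    (hU : U ⊆ edges r) {D J : ℕ} (c₀ : Fin D)
    {ω ω' : X → (Fin J → Fin N × Equiv.Perm (Fin D))} {e : X × Y}
    (h : ∀ z ∈ ball r (K + 2) e.1, ω z = ω' z) :
    e ∈ left r K idx U c₀ ω ↔ e ∈ left r K idx U c₀ ω' := by
  have h1 : ∀ j : Fin J, (e ∈ cls r K idx U c₀ (fun x => ω x j)) ↔
      (e ∈ cls r K idx U c₀ (fun x => ω' x j)) := by
    intro j
    exact cls_congr r K N idx U hU c₀ (fun z hz => by rw [h z hz])
  unfold left
  simp only [mem_filter, h1]

theorem self_mem_ball_one (r : X → Y → Prop) (x : X) : x ∈ ball r 1 x := by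
  simp only [ball, mem_filter, mem_univ, true_and, mem_singleton]
  exact Or.inl trivial

theorem mem_ball_one (r : X → Y → Prop) {x x' : X} {y : Y} (h : r x y) (h' : r x' y) :
    x' ∈ ball r 1 x := by
  simp only [ball, mem_filter, mem_univ, true_and, mem_singleton]
  exact Or.inr ⟨x, rfl, y, h, h'⟩

theorem filter_left_congr (r : X → Y → Prop) (K N : ℕ) (idx : Y → ℕ) (U : Finset (X × Y))
    (hU : U ⊆ edges r) {D J : ℕ} (c₀ : Fin D)
    {ω ω' : X → (Fin J → Fin N × Equiv.Perm (Fin D))} {x : X}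
    (h : ∀ z ∈ ball r (K + 3) x, ω z = ω' z) (S : Finset (X × Y))
    (hS : ∀ e ∈ S, e.1 ∈ ball r 1 x) :
    S.filter (fun e => e ∈ left r K idx U c₀ ω) = S.filter (fun e => e ∈ left r K idx U c₀ ω') := by
  refine filter_congr fun e he => ?_
  refine mem_left_congr r K N idx U hU c₀ fun z hz => h z ?_
  have h1 := ball_trans r 1 (K + 2) (hS e he) hz
  rwa [show 1 + (K + 2) = K + 3 by ring] at h1

/-! ### the bad events -/

/-- the edges counted in the load of `x` -/
noncomputable def lset (r : X → Y → Prop) (K : ℕ) (l : X → ℕ) (U : Finset (X × Y)) (x : X) :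
    Finset (X × Y) := (act r K l U).filter (fun e => r x e.2)

/-- the bad event at `x` -/
def bad (r : X → Y → Prop) (K N D' : ℕ) (idx : Y → ℕ) (U : Finset (X × Y)) {D J : ℕ} (c₀ : Fin D)
    (δ' : ℝ) (x : X) (ω : X → (Fin J → Fin N × Equiv.Perm (Fin D))) : Prop :=
  δ' < pr (fun l : X → Fin N => load r K (fun z => (l z : ℕ)) U x ≤ D ∧
      D' + 1 ≤ ((lset r K (fun z => (l z : ℕ)) U x).filter
        (fun e => e ∈ left r K idx U c₀ ω)).card) ∨
    D' + 1 ≤ ((U.filter (fun e => e.1 = x)).filter (fun e => e ∈ left r K idx U c₀ ω)).card ∨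
    ∃ y ∈ nX r x,
      D' + 1 ≤ ((U.filter (fun e => e.2 = y)).filter (fun e => e ∈ left r K idx U c₀ ω)).card

theorem bad_congr (r : X → Y → Prop) (K N D' : ℕ) (idx : Y → ℕ) (U : Finset (X × Y))
    (hU : U ⊆ edges r) {D J : ℕ} (c₀ : Fin D) (δ' : ℝ) (x : X)
    {ω ω' : X → (Fin J → Fin N × Equiv.Perm (Fin D))}
    (h : ∀ z ∈ ball r (K + 3) x, ω z = ω' z) :
    bad r K N D' idx U c₀ δ' x ω ↔ bad r K N D' idx U c₀ δ' x ω' := by
  have hr : ∀ e ∈ U, r e.1 e.2 := fun e he => (mem_filter.1 (hU he)).2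
  have h1 : ∀ l : X → Fin N,
      (lset r K (fun z => (l z : ℕ)) U x).filter (fun e => e ∈ left r K idx U c₀ ω) =
      (lset r K (fun z => (l z : ℕ)) U x).filter (fun e => e ∈ left r K idx U c₀ ω') := by
    intro l
    refine filter_left_congr r K N idx U hU c₀ h _ fun e he => ?_
    unfold lset act at he
    simp only [mem_filter] at he
    exact mem_ball_one r he.2 (hr e he.1.1)
  have h2 : (U.filter (fun e => e.1 = x)).filter (fun e => e ∈ left r K idx U c₀ ω) =
      (U.filter (fun e => e.1 = x)).filter (fun e => e ∈ left r K idx U c₀ ω') := by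
    refine filter_left_congr r K N idx U hU c₀ h _ fun e he => ?_
    rw [(mem_filter.1 he).2]
    exact self_mem_ball_one r x
  have h3 : ∀ y ∈ nX r x,
      (U.filter (fun e => e.2 = y)).filter (fun e => e ∈ left r K idx U c₀ ω) =
      (U.filter (fun e => e.2 = y)).filter (fun e => e ∈ left r K idx U c₀ ω') := by
    intro y hy
    refine filter_left_congr r K N idx U hU c₀ h _ fun e he => ?_
    obtain ⟨he1, he2⟩ := mem_filter.1 he
    have hxy : r x y := (mem_filter.1 hy).2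
    refine mem_ball_one r hxy ?_
    rw [← he2]
    exact hr e he1
  unfold bad
  simp only [h1, h2]
  refine or_congr_right (or_congr_right (exists_congr fun y => ?_))
  constructor
  · rintro ⟨hy, h4⟩
    exact ⟨hy, by rw [← h3 y hy]; exact h4⟩
  · rintro ⟨hy, h4⟩
    exact ⟨hy, by rw [h3 y hy]; exact h4⟩

/-- the probability of the bad event -/
theorem pr_bad_le (r : X → Y → Prop) (K N Δ D' : ℕ) (idx : Y → ℕ) (U : Finset (X × Y))
    {D J : ℕ} (c₀ : Fin D) (δ' b : ℝ) (hδ : 0 < δ') (hb : 0 ≤ b)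
    (hX : ∀ x, (nX r x).card ≤ Δ)
    (hdX : ∀ x, (U.filter (fun e => e.1 = x)).card ≤ D)
    (hdY : ∀ y, (U.filter (fun e => e.2 = y)).card ≤ D)
    (htail : ∀ S : Finset (X × Y), S ⊆ U → S.card ≤ D →
      pr (fun ω : X → (Fin J → Fin N × Equiv.Perm (Fin D)) =>
        D' + 1 ≤ (S.filter (fun e => e ∈ left r K idx U c₀ ω)).card) ≤ b) (x : X) :
    pr (bad (J := J) r K N D' idx U c₀ δ' x) ≤ (1 / δ' + 1 + Δ) * b := by
  have e1 : pr (fun ω : X → (Fin J → Fin N × Equiv.Perm (Fin D)) =>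
      δ' < pr (fun l : X → Fin N => load r K (fun z => (l z : ℕ)) U x ≤ D ∧
      D' + 1 ≤ ((lset r K (fun z => (l z : ℕ)) U x).filter
        (fun e => e ∈ left r K idx U c₀ ω)).card)) ≤ b / δ' := by
    refine markov (fun (ω : X → (Fin J → Fin N × Equiv.Perm (Fin D))) (l : X → Fin N) =>
      load r K (fun z => (l z : ℕ)) U x ≤ D ∧
      D' + 1 ≤ ((lset r K (fun z => (l z : ℕ)) U x).filter
        (fun e => e ∈ left r K idx U c₀ ω)).card) b δ' hb hδ ?_
    intro l
    by_cases hl : load r K (fun z => (l z : ℕ)) U x ≤ D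
    · refine (pr_mono fun ω hω => hω.2).trans (htail _ ?_ hl)
      intro e he
      unfold act at he
      simp only [mem_filter] at he
      exact he.1.1
    · rw [pr_false (fun ω hω => hl hω.1)]
      exact hb
  have e2 := htail (U.filter (fun e => e.1 = x)) (filter_subset _ _) (hdX x)
  have e3 : pr (fun ω : X → (Fin J → Fin N × Equiv.Perm (Fin D)) => ∃ y ∈ nX r x,
      D' + 1 ≤ ((U.filter (fun e => e.2 = y)).filter
        (fun e => e ∈ left r K idx U c₀ ω)).card) ≤ Δ * b := by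
    refine (pr_exists_le (nX r x) (fun y (ω : X → (Fin J → Fin N × Equiv.Perm (Fin D))) =>
      D' + 1 ≤ ((U.filter (fun e => e.2 = y)).filter
        (fun e => e ∈ left r K idx U c₀ ω)).card)).trans ?_
    refine (Finset.sum_le_sum fun y _ => htail (U.filter (fun e => e.2 = y)) (filter_subset _ _)
      (hdY y)).trans ?_
    rw [Finset.sum_const, nsmul_eq_mul]
    have := hX x
    gcongr
  have e4 := pr_or_le (fun ω : X → (Fin J → Fin N × Equiv.Perm (Fin D)) =>
      δ' < pr (fun l : X → Fin N => load r K (fun z => (l z : ℕ)) U x ≤ D ∧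
      D' + 1 ≤ ((lset r K (fun z => (l z : ℕ)) U x).filter
        (fun e => e ∈ left r K idx U c₀ ω)).card))
    (fun ω => D' + 1 ≤ ((U.filter (fun e => e.1 = x)).filter
        (fun e => e ∈ left r K idx U c₀ ω)).card ∨
      ∃ y ∈ nX r x, D' + 1 ≤ ((U.filter (fun e => e.2 = y)).filter
        (fun e => e ∈ left r K idx U c₀ ω)).card)
  have e5 := pr_or_le (fun ω : X → (Fin J → Fin N × Equiv.Perm (Fin D)) =>
      D' + 1 ≤ ((U.filter (fun e => e.1 = x)).filter
        (fun e => e ∈ left r K idx U c₀ ω)).card)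
      (fun ω => ∃ y ∈ nX r x, D' + 1 ≤ ((U.filter (fun e => e.2 = y)).filter
        (fun e => e ∈ left r K idx U c₀ ω)).card)
  have e6 : pr (bad (J := J) r K N D' idx U c₀ δ' x) ≤ b / δ' + (b + Δ * b) := by
    refine le_trans (le_of_eq ?_) (e4.trans (add_le_add e1 (e5.trans (add_le_add e2 e3))))
    rfl
  refine e6.trans (le_of_eq ?_)
  ring

end Phase

variable {X Y : Type} [Fintype X] [Fintype Y]

theorem phase (r : X → Y → Prop) (H K Δ D D' J k : ℕ) (δ δ' β p q : ℝ)
    (hX : ∀ x, (nX r x).card ≤ Δ) (hY : ∀ y, (nY r y).card ≤ Δ)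
    (hH : 0 < H) (hΔ : 0 < Δ) (hK : K ≤ H * Δ) (hD : 0 < D) (hδ : 0 < δ') (hk : k ≤ D')
    (U : Finset (X × Y)) (hU : Good r K (H * Δ) D δ U)
    (hp : p ≤ ((1 - 1 / H - Real.exp (-(K / H))) / Δ - δ) / D)
    (hq : q = ((K : ℝ) / (H * Δ)) ^ 2 / D)
    (hβ : D * Real.exp (-(J * (p - k * q / 2))) ≤ β * (D' + 1 - k)) (hβ0 : 0 ≤ β)
    (hlll : 4 * ((1 / δ' + 1 + Δ) * β ^ k) * (((Δ : ℝ) ^ 2 + 1) ^ (2 * K + 6) + 1) ≤ 1) :
    ∃ M : Fin J → Finset (X × Y), (∀ j, IndMatch r (M j)) ∧
      Good r K (H * Δ) D' (δ + δ') (U.filter (fun e => ∀ j, e ∉ M j)) := by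
  obtain ⟨hUe, hload, hdX, hdY⟩ := hU
  obtain ⟨idx, hidx⟩ : ∃ idx : Y → ℕ, Function.Injective idx :=
    ⟨fun y => (Fintype.equivFin Y y : ℕ), fun a b h =>
      (Fintype.equivFin Y).injective (Fin.ext h)⟩
  have hN : 0 < H * Δ := Nat.mul_pos hH hΔ
  let c₀ : Fin D := ⟨0, hD⟩
  have hpe : ∀ e ∈ U, p ≤ pr (fun ω : X → Fin (H * Δ) × Equiv.Perm (Fin D) =>
      e ∈ cls r K idx U c₀ ω) := by
    intro e he
    have hr : r e.1 e.2 := (mem_filter.1 (hUe he)).2
    exact hp.trans (pr_cls_ge r K (H * Δ) idx hidx U hUe c₀ he _ δ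
      (pr_isFirst r H K Δ hH hΔ hK hr (hY _)) (hload e.1))
  have hqe : ∀ e ∈ U, ∀ e' ∈ U, e ≠ e' → pr (fun ω : X → Fin (H * Δ) × Equiv.Perm (Fin D) =>
      e ∈ cls r K idx U c₀ ω ∧ e' ∈ cls r K idx U c₀ ω) ≤ q := by
    intro e _ e' _ hne
    have h1 := pr_cls_pair r K (H * Δ) idx hidx U hUe c₀ hne
    rw [hq]
    push_cast at h1
    exact h1
  have hq0 : 0 ≤ q := by rw [hq]; positivity
  have hkD : (0 : ℝ) < D' + 1 - k := by
    have : (k : ℝ) ≤ D' := by exact_mod_cast hk
    linarith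
  have htail : ∀ S : Finset (X × Y), S ⊆ U → S.card ≤ D →
      pr (fun ω : X → (Fin J → Fin (H * Δ) × Equiv.Perm (Fin D)) =>
        D' + 1 ≤ (S.filter (fun e => e ∈ left r K idx U c₀ ω)).card) ≤ β ^ k := by
    intro S hS hSD
    refine (pr_left_tail r K idx U S hS J hN c₀ p q (fun e he => hpe e (hS he))
      (fun e he e' he' => hqe e (hS he) e' (hS he')) hq0 D (D' + 1) k hSD
      (Nat.lt_succ_of_le hk)).trans ?_
    push_cast
    refine pow_le_pow_left₀ (by positivity) ?_ k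
    rw [div_le_iff₀ hkD]
    exact hβ
  have : Nonempty (Fin (H * Δ)) := ⟨⟨0, hN⟩⟩
  have hcard : ∀ i : X, (univ.filter (fun j => ∃ t, t ∈ ball r (K + 3) i ∧
      t ∈ ball r (K + 3) j)).card ≤ (Δ ^ 2 + 1) ^ (2 * K + 6) := by
    intro i
    refine le_trans (card_le_card ?_) (ball_card r Δ hX hY (2 * K + 6) i)
    intro j hj
    simp only [mem_filter, mem_univ, true_and] at hj
    obtain ⟨t, ht1, ht2⟩ := hj
    have := ball_trans r (K + 3) (K + 3) ht1 (ball_symm r (K + 3) ht2)
    rwa [show K + 3 + (K + 3) = 2 * K + 6 by ring] at this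
  obtain ⟨ω, hω⟩ := lll (T := X) (A := Fin J → Fin (H * Δ) × Equiv.Perm (Fin D)) (ι := X)
    (fun x => ball r (K + 3) x) (fun x => Phase.bad r K (H * Δ) D' idx U c₀ δ' x)
    (fun x ω ω' h => Phase.bad_congr r K (H * Δ) D' idx U hUe c₀ δ' x h)
    ((Δ ^ 2 + 1) ^ (2 * K + 6)) hcard ((1 / δ' + 1 + Δ) * β ^ k)
    (fun x => Phase.pr_bad_le r K (H * Δ) Δ D' idx U c₀ δ' (β ^ k) hδ (by positivity) hX hdX hdY
      htail x) (by push_cast; exact hlll)
  refine ⟨fun j => cls r K idx U c₀ (fun x => ω x j), fun j =>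
    cls_indMatch r K (H * Δ) idx hidx U hUe c₀ _, ?_⟩
  have hleft : U.filter (fun e => ∀ j, e ∉ cls r K idx U c₀ (fun x => ω x j)) =
      left r K idx U c₀ ω := rfl
  rw [hleft]
  have hsub : left r K idx U c₀ ω ⊆ U := filter_subset _ _
  have hbad : ∀ x, ¬ Phase.bad r K (H * Δ) D' idx U c₀ δ' x ω := hω
  refine ⟨hsub.trans hUe, ?_, ?_, ?_⟩
  · intro x
    have h1 : ¬ δ' < pr (fun l : X → Fin (H * Δ) => load r K (fun z => (l z : ℕ)) U x ≤ D ∧
      D' + 1 ≤ ((Phase.lset r K (fun z => (l z : ℕ)) U x).filter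
        (fun e => e ∈ left r K idx U c₀ ω)).card) := fun h => hbad x (Or.inl h)
    have h2 := not_lt.1 h1
    refine le_trans (Phase.pr_mono (q := fun l : X → Fin (H * Δ) =>
      D < load r K (fun z => (l z : ℕ)) U x ∨ (load r K (fun z => (l z : ℕ)) U x ≤ D ∧
      D' + 1 ≤ ((Phase.lset r K (fun z => (l z : ℕ)) U x).filter
        (fun e => e ∈ left r K idx U c₀ ω)).card)) ?_)
      ((Phase.pr_or_le _ _).trans (add_le_add (hload x) h2))
    intro l hl
    rcases lt_or_ge D (load r K (fun z => (l z : ℕ)) U x) with h3 | h3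
    · exact Or.inl h3
    · refine Or.inr ⟨h3, ?_⟩
      refine (Nat.succ_le_of_lt hl).trans (card_le_card ?_)
      intro e he
      unfold act at he
      simp only [mem_filter] at he
      unfold Phase.lset act
      simp only [mem_filter]
      exact ⟨⟨⟨hsub he.1.1, he.1.2⟩, he.2⟩, he.1.1⟩
  · intro x
    have h1 : ¬ D' + 1 ≤ ((U.filter (fun e => e.1 = x)).filter
        (fun e => e ∈ left r K idx U c₀ ω)).card := fun h => hbad x (Or.inr (Or.inl h))
    refine le_trans (card_le_card ?_) (Nat.le_of_lt_succ (not_le.1 h1))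
    intro e he
    simp only [mem_filter] at he ⊢
    exact ⟨⟨hsub he.1, he.2⟩, he.1⟩
  · intro y
    rcases Finset.eq_empty_or_nonempty ((left r K idx U c₀ ω).filter (fun e => e.2 = y)) with
      h0 | ⟨e, he⟩
    · rw [h0]
      simp
    · have he' := mem_filter.1 he
      have hr : r e.1 e.2 := (mem_filter.1 (hUe (hsub he'.1))).2
      have hy : y ∈ nX r e.1 := mem_filter.2 ⟨mem_univ _, by rw [← he'.2]; exact hr⟩
      have h1 : ¬ D' + 1 ≤ ((U.filter (fun e => e.2 = y)).filter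
        (fun e => e ∈ left r K idx U c₀ ω)).card :=
        fun h => hbad e.1 (Or.inr (Or.inr ⟨y, hy, h⟩))
      refine le_trans (card_le_card ?_) (Nat.le_of_lt_succ (not_le.1 h1))
      intro e he
      simp only [mem_filter] at he ⊢
      exact ⟨⟨hsub he.1, he.2⟩, he.1⟩

end Pool.Agent.SEC
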