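import Pool.Agent.Helper66.SEC.Defs

/-!
# S2: the greedy colouring is complete and proper
-/

set_option autoImplicit false

namespace Pool.Agent.SEC

open Finset
open scoped Classical

variable {X Y : Type} [Fintype X] [Fintype Y]

namespace Proper

theorem stage_succ (r : X → Y → Prop) (l : X → ℕ) (idx : Y → ℕ) (W : Finset (X × Y)) {D : ℕ}
    (π : X → Equiv.Perm (Fin D)) (k : ℕ) (e : X × Y) :
    stage r l idx W π (k + 1) e =
      if e ∈ W ∧ l e.1 = k then
        (avail (π e.1) (univ.filter (fun c => ∃ e' ∈ W, r e.1 e'.2 ∧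
          stage r l idx W π k e' = some c)))[rank idx W e]?
      else stage r l idx W π k e := rfl

theorem stage_some (r : X → Y → Prop) (l : X → ℕ) (idx : Y → ℕ) (W : Finset (X × Y)) {D : ℕ}
    (π : X → Equiv.Perm (Fin D)) : ∀ (k : ℕ) (e : X × Y) (c : Fin D),
      stage r l idx W π k e = some c → e ∈ W ∧ l e.1 < k := by
  intro k
  induction k with
  | zero =>
    intro e c h
    have h1 : (none : Option (Fin D)) = some c := h
    exact absurd h1 (by simp)
  | succ k ih =>
    intro e c h
    rw [stage_succ] at h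
    by_cases he : e ∈ W ∧ l e.1 = k
    · exact ⟨he.1, by omega⟩
    · rw [if_neg he] at h
      obtain ⟨h1, h2⟩ := ih e c h
      exact ⟨h1, by omega⟩

theorem stage_const (r : X → Y → Prop) (l : X → ℕ) (idx : Y → ℕ) (W : Finset (X × Y)) {D : ℕ}
    (π : X → Equiv.Perm (Fin D)) {k : ℕ} {e : X × Y} (hk : l e.1 < k) (m : ℕ) (hm : k ≤ m) :
    stage r l idx W π m e = stage r l idx W π k e := by
  induction m, hm using Nat.le_induction with
  | base => rfl
  | succ m hm ih =>
    rw [stage_succ, if_neg, ih]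
    rintro ⟨_, h⟩
    omega

theorem avail_nodup {D : ℕ} (π : Equiv.Perm (Fin D)) (B : Finset (Fin D)) :
    (avail π B).Nodup := by
  unfold avail
  exact ((List.nodup_finRange D).map π.injective).filter _

theorem mem_avail {D : ℕ} (π : Equiv.Perm (Fin D)) (B : Finset (Fin D)) (c : Fin D) :
    c ∈ avail π B ↔ c ∉ B := by
  unfold avail
  rw [List.mem_filter]
  constructor
  · rintro ⟨_, h⟩
    simpa using h
  · intro h
    refine ⟨?_, by simpa using h⟩
    rw [List.mem_map]
    exact ⟨π.symm c, List.mem_finRange _, by simp⟩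

theorem length_avail {D : ℕ} (π : Equiv.Perm (Fin D)) (B : Finset (Fin D)) :
    (avail π B).length = D - B.card := by
  rw [← List.toFinset_card_of_nodup (avail_nodup π B)]
  have : (avail π B).toFinset = Bᶜ := by
    ext c
    rw [List.mem_toFinset, mem_avail, Finset.mem_compl]
  rw [this, Finset.card_compl, Fintype.card_fin]

theorem blocked_card (r : X → Y → Prop) (l : X → ℕ) (idx : Y → ℕ) (W : Finset (X × Y)) {D : ℕ}
    (π : X → Equiv.Perm (Fin D)) (k : ℕ) (x : X) :
    (univ.filter (fun c : Fin D => ∃ e' ∈ W, r x e'.2 ∧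
      stage r l idx W π k e' = some c)).card ≤ (W.filter (fun e' => r x e'.2 ∧ l e'.1 < k)).card := by
  have hsub : univ.filter (fun c : Fin D => ∃ e' ∈ W, r x e'.2 ∧
      stage r l idx W π k e' = some c) ⊆
      (W.filter (fun e' => r x e'.2 ∧ l e'.1 < k)).biUnion
        (fun e' => (stage r l idx W π k e').toFinset) := by
    intro c hc
    rw [Finset.mem_filter] at hc
    obtain ⟨_, e', he', hr, hs⟩ := hc
    rw [Finset.mem_biUnion]
    refine ⟨e', ?_, ?_⟩
    · rw [Finset.mem_filter]
      exact ⟨he', hr, (stage_some r l idx W π k e' c hs).2⟩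
    · rw [hs]
      simp
  refine le_trans (Finset.card_le_card hsub) ?_
  refine le_trans (Finset.card_biUnion_le_card_mul _ _ 1 ?_) (by rw [mul_one])
  intro e' _
  cases h : stage r l idx W π k e' with
  | none => simp
  | some c => simp

end Proper

open Proper

theorem stage_isSome (r : X → Y → Prop) (K : ℕ) (l : X → ℕ) (idx : Y → ℕ)
    (hidx : Function.Injective idx) (U : Finset (X × Y)) (hU : U ⊆ edges r) {D : ℕ}
    (π : X → Equiv.Perm (Fin D)) {e : X × Y} (he : e ∈ used r K l U D) :
    ∃ c, stage r l idx (used r K l U D) π K e = some c := by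
  set W := used r K l U D with hW
  have hact : ∀ e' ∈ W, e' ∈ act r K l U := by
    intro e' he'
    rw [hW] at he'
    unfold used at he'
    exact (Finset.mem_filter.1 he').1
  have hadj : ∀ e' ∈ W, r e'.1 e'.2 := by
    intro e' he'
    have h1 := hact e' he'
    unfold act at h1
    exact (Finset.mem_filter.1 h1).2.1
  have hload : load r K l U e.1 ≤ D := by
    rw [hW] at he
    unfold used at he
    exact (Finset.mem_filter.1 he).2
  have hlK : l e.1 < K := by
    have h1 := hact e he
    unfold act at h1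
    exact (Finset.mem_filter.1 h1).2.2.1
  rw [stage_const r l idx W π (Nat.lt_succ_self (l e.1)) K hlK]
  rw [stage_succ, if_pos ⟨he, rfl⟩]
  set B := univ.filter (fun c : Fin D => ∃ e' ∈ W, r e.1 e'.2 ∧
      stage r l idx W π (l e.1) e' = some c) with hB
  have hBc := blocked_card r l idx W π (l e.1) e.1
  rw [← hB] at hBc
  have hsum : (W.filter (fun e' => r e.1 e'.2 ∧ l e'.1 < l e.1)).card + rank idx W e + 1 ≤
      load r K l U e.1 := by
    unfold rank load
    have hd1 : Disjoint (W.filter (fun e' => r e.1 e'.2 ∧ l e'.1 < l e.1))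
        (W.filter (fun e' => e'.1 = e.1 ∧ idx e'.2 < idx e.2)) := by
      rw [Finset.disjoint_left]
      intro e' h1 h2
      rw [Finset.mem_filter] at h1 h2
      rw [h2.2.1] at h1
      exact lt_irrefl _ h1.2.2
    have hd2 : e ∉ (W.filter (fun e' => r e.1 e'.2 ∧ l e'.1 < l e.1)) ∪
        (W.filter (fun e' => e'.1 = e.1 ∧ idx e'.2 < idx e.2)) := by
      rw [Finset.mem_union, Finset.mem_filter, Finset.mem_filter]
      rintro (⟨_, _, h⟩ | ⟨_, _, h⟩)
      · exact lt_irrefl _ h
      · exact lt_irrefl _ h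
    rw [← Finset.card_union_of_disjoint hd1, ← Finset.card_insert_of_notMem hd2]
    apply Finset.card_le_card
    intro e' he'
    rw [Finset.mem_insert, Finset.mem_union, Finset.mem_filter, Finset.mem_filter] at he'
    rw [Finset.mem_filter]
    rcases he' with h | ⟨h1, h2, _⟩ | ⟨h1, h2, _⟩
    · rw [h]
      exact ⟨hact e he, hadj e he⟩
    · exact ⟨hact e' h1, h2⟩
    · refine ⟨hact e' h1, ?_⟩
      rw [← h2]
      exact hadj e' h1
  have hlen : rank idx W e < (avail (π e.1) B).length := by
    rw [length_avail]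
    omega
  exact ⟨(avail (π e.1) B)[rank idx W e], List.getElem?_eq_getElem hlen⟩

theorem stage_induced (r : X → Y → Prop) (K : ℕ) (l : X → ℕ) (idx : Y → ℕ)
    (hidx : Function.Injective idx) (U : Finset (X × Y)) (hU : U ⊆ edges r) {D : ℕ}
    (π : X → Equiv.Perm (Fin D)) {e e' : X × Y} (he : e ∈ used r K l U D)
    (he' : e' ∈ used r K l U D) (hne : e ≠ e') {c : Fin D}
    (h : stage r l idx (used r K l U D) π K e = some c)
    (h' : stage r l idx (used r K l U D) π K e' = some c) : ¬ r e.1 e'.2 := by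
  intro hr
  set W := used r K l U D with hW
  have hact : ∀ e' ∈ W, e' ∈ act r K l U := by
    intro e' he'
    rw [hW] at he'
    unfold used at he'
    exact (Finset.mem_filter.1 he').1
  have hfirst : ∀ e' ∈ W, IsFirst r K l e'.1 e'.2 := by
    intro e' he'
    have h1 := hact e' he'
    unfold act at h1
    exact (Finset.mem_filter.1 h1).2
  have hrank : ∀ a ∈ W, ∀ b ∈ W, a.1 = b.1 → idx a.2 < idx b.2 →
      rank idx W a < rank idx W b := by
    intro a ha b hb hab hlt
    unfold rank
    apply Finset.card_lt_card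
    rw [Finset.ssubset_iff_of_subset]
    · refine ⟨a, ?_, ?_⟩
      · rw [Finset.mem_filter]
        exact ⟨ha, hab, hlt⟩
      · rw [Finset.mem_filter]
        rintro ⟨_, _, h⟩
        exact lt_irrefl _ h
    · intro z hz
      rw [Finset.mem_filter] at hz ⊢
      exact ⟨hz.1, hz.2.1.trans hab, hz.2.2.trans hlt⟩
  rw [stage_const r l idx W π (Nat.lt_succ_self (l e.1)) K (hfirst e he).2.1] at h
  rw [stage_succ, if_pos ⟨he, rfl⟩] at h
  by_cases h1 : e.1 = e'.1
  · rw [stage_const r l idx W π (Nat.lt_succ_self (l e'.1)) K (hfirst e' he').2.1] at h'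
    rw [stage_succ, if_pos ⟨he', rfl⟩, ← h1] at h'
    obtain ⟨hlt, hc⟩ := List.getElem?_eq_some_iff.1 h
    obtain ⟨hlt', hc'⟩ := List.getElem?_eq_some_iff.1 h'
    have h2 : rank idx W e = rank idx W e' :=
      (List.Nodup.getElem_inj_iff (avail_nodup _ _)).1 (hc.trans hc'.symm)
    have h3 : e.2 ≠ e'.2 := fun h3 => hne (Prod.ext h1 h3)
    rcases lt_trichotomy (idx e.2) (idx e'.2) with h4 | h4 | h4
    · exact absurd h2 (hrank e he e' he' h1 h4).ne
    · exact h3 (hidx h4)
    · exact absurd h2 (hrank e' he' e he h1.symm h4).ne'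
  · have h2 : l e'.1 < l e.1 := (hfirst e' he').2.2 e.1 hr h1
    have h3 : stage r l idx W π (l e.1) e' = some c := by
      rw [← h', stage_const r l idx W π h2 K (hfirst e he).2.1.le]
    have h4 : c ∈ avail (π e.1) (univ.filter (fun c => ∃ e' ∈ W, r e.1 e'.2 ∧
        stage r l idx W π (l e.1) e' = some c)) := List.mem_of_getElem? h
    rw [mem_avail] at h4
    apply h4
    rw [Finset.mem_filter]
    exact ⟨Finset.mem_univ _, e', he', hr, h3⟩

end Pool.Agent.SEC
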